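import Pool.Agent.Helper3.NFR.Base

/-! # module 11: bits -/

namespace Pool.Agent.Helper3.NFR

open Finset
open scoped Classical

theorem bits_int {V Y : Type} [Fintype V] (f : V → Y → ℝ) (M : Y → ℝ) (β : ℝ) (E : Finset V)
    (hβ : 0 < β) (_hM : ∀ y, 0 ≤ M y)
    (h : ∀ E' ⊆ E, ∃ ξ : V → ℝ, (∀ v, ξ v = 1 ∨ ξ v = -1) ∧ ∀ y, ∑ u ∈ E', ξ u * f u y ≤
      β * ∑ u ∈ E', |f u y| + M y) (K : ℕ) :
    ∀ m : V → ℕ, (∀ v, m v ≤ 2 ^ K) → ∃ x : V → ℕ, (∀ v, x v ≤ 1) ∧
      ∀ y, ∑ u ∈ E, ((x u : ℝ) - (m u : ℝ) / 2 ^ K) * f u y ≤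
        (1 - 1 / 2 ^ K) * (β * ∑ u ∈ E, |f u y| + M y) := by
  induction K with
  | zero =>
    intro m hm
    refine ⟨m, fun v => by simpa using hm v, fun y => ?_⟩
    simp
  | succ K ih =>
    intro m hm
    obtain ⟨ξ, hξ, hξ2⟩ := h (E.filter (fun u => m u % 2 = 1)) (Finset.filter_subset _ _)
    set m' : V → ℕ := fun v => if ξ v = 1 ∧ m v % 2 = 1 then m v / 2 + 1 else m v / 2 with hm'
    have hm'2 : ∀ v, m' v ≤ 2 ^ K := by
      intro v
      have h1 := hm v
      rw [pow_succ] at h1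
      rw [hm']
      dsimp only
      split_ifs with hc
      · omega
      · omega
    obtain ⟨x, hx, hx2⟩ := ih m' hm'2
    refine ⟨x, hx, fun y => ?_⟩
    have h1 := hx2 y
    have h2 := hξ2 y
    have h3 : ∑ u ∈ E.filter (fun u => m u % 2 = 1), |f u y| ≤ ∑ u ∈ E, |f u y| :=
      Finset.sum_le_sum_of_subset_of_nonneg (Finset.filter_subset _ _) (fun _ _ _ => abs_nonneg _)
    have h4 : ∑ u ∈ E, (((m' u : ℝ) / 2 ^ K) - (m u : ℝ) / 2 ^ (K + 1)) * f u y =
        1 / 2 ^ (K + 1) * ∑ u ∈ E.filter (fun u => m u % 2 = 1), ξ u * f u y := by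
      rw [Finset.sum_filter, Finset.mul_sum]
      apply Finset.sum_congr rfl
      intro u _
      by_cases hodd : m u % 2 = 1
      · rw [if_pos hodd]
        rcases hξ u with hu | hu
        · have e : m' u = m u / 2 + 1 := by rw [hm']; simp [hu, hodd]
          have e2 : (m u : ℝ) = 2 * ((m u / 2 : ℕ) : ℝ) + 1 := by
            have : m u = 2 * (m u / 2) + 1 := by omega
            exact_mod_cast this
          rw [e, hu, e2, pow_succ]
          push_cast
          field_simp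
          ring
        · have e : m' u = m u / 2 := by
            rw [hm']
            have : ¬ (ξ u = 1) := by rw [hu]; norm_num
            simp [this]
          have e2 : (m u : ℝ) = 2 * ((m u / 2 : ℕ) : ℝ) + 1 := by
            have : m u = 2 * (m u / 2) + 1 := by omega
            exact_mod_cast this
          rw [e, hu, e2, pow_succ]
          field_simp
          ring
      · rw [if_neg hodd]
        have e : m' u = m u / 2 := by
          rw [hm']
          simp [hodd]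
        have e2 : (m u : ℝ) = 2 * ((m u / 2 : ℕ) : ℝ) := by
          have : m u = 2 * (m u / 2) := by omega
          exact_mod_cast this
        rw [e, e2, pow_succ]
        field_simp
        ring
    have h5 : ∑ u ∈ E, ((x u : ℝ) - (m u : ℝ) / 2 ^ (K + 1)) * f u y =
        ∑ u ∈ E, ((x u : ℝ) - (m' u : ℝ) / 2 ^ K) * f u y +
        ∑ u ∈ E, (((m' u : ℝ) / 2 ^ K) - (m u : ℝ) / 2 ^ (K + 1)) * f u y := by
      rw [← Finset.sum_add_distrib]
      exact Finset.sum_congr rfl fun u _ => by ring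
    rw [h5, h4]
    have h6 : 1 / (2 : ℝ) ^ (K + 1) * ∑ u ∈ E.filter (fun u => m u % 2 = 1), ξ u * f u y ≤
        1 / 2 ^ (K + 1) * (β * ∑ u ∈ E, |f u y| + M y) := by
      apply mul_le_mul_of_nonneg_left _ (by positivity)
      have := mul_le_mul_of_nonneg_left h3 hβ.le
      linarith
    have h7 : (1 - 1 / (2 : ℝ) ^ (K + 1)) = (1 - 1 / 2 ^ K) + 1 / 2 ^ (K + 1) := by
      rw [pow_succ]
      field_simp
      ring
    rw [h7, add_mul]
    linarith

theorem st_bits : ST_BITS := by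
  intro V Y _ f M β E hβ hM h z hz
  obtain ⟨K, hK⟩ := exists_pow_lt_of_lt_one hβ (show (1 / 2 : ℝ) < 1 by norm_num)
  set w : V → ℝ := fun v => (1 + z v) / 2 with hw
  have hw0 : ∀ v, 0 ≤ w v := fun v => by
    have := abs_le.mp (hz v)
    rw [hw]; dsimp only; linarith
  have hw1 : ∀ v, w v ≤ 1 := fun v => by
    have := abs_le.mp (hz v)
    rw [hw]; dsimp only; linarith
  set m : V → ℕ := fun v => ⌊w v * 2 ^ K⌋₊ with hm
  have hm2 : ∀ v, m v ≤ 2 ^ K := by
    intro v
    have h1 : (m v : ℝ) ≤ w v * 2 ^ K := Nat.floor_le (by have := hw0 v; positivity)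
    have h2 : (m v : ℝ) ≤ ((2 ^ K : ℕ) : ℝ) := by
      push_cast
      refine h1.trans ?_
      have := hw1 v
      have h3 : (0 : ℝ) < 2 ^ K := by positivity
      nlinarith
    exact_mod_cast h2
  obtain ⟨x, hx, hx2⟩ := bits_int f M β E hβ hM h K m hm2
  refine ⟨fun v => 2 * (x v : ℝ) - 1, ?_, ?_⟩
  · intro v
    have h1 := hx v
    have h2 : x v = 0 ∨ x v = 1 := by omega
    rcases h2 with h2 | h2
    · right; dsimp only; rw [h2]; norm_num
    · left; dsimp only; rw [h2]; norm_num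
  · intro y
    have h1 := hx2 y
    have h2 : ∀ v, |(m v : ℝ) / 2 ^ K - w v| ≤ β := by
      intro v
      have h3 : (m v : ℝ) ≤ w v * 2 ^ K := Nat.floor_le (by have := hw0 v; positivity)
      have h4 : w v * 2 ^ K < m v + 1 := Nat.lt_floor_add_one _
      have h5 : (0 : ℝ) < 2 ^ K := by positivity
      have h6 : (m v : ℝ) / 2 ^ K ≤ w v := by
        rw [div_le_iff₀ h5]; exact h3
      have h7 : w v ≤ (m v : ℝ) / 2 ^ K + 1 / 2 ^ K := by
        rw [← add_div, le_div_iff₀ h5]; exact h4.le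
      have h8 : 1 / (2 : ℝ) ^ K < β := by
        rw [one_div, ← inv_pow, ← one_div]
        exact hK
      rw [abs_le]
      constructor <;> linarith
    have h9 : ∑ u ∈ E, ((m u : ℝ) / 2 ^ K - w u) * f u y ≤ β * ∑ u ∈ E, |f u y| := by
      rw [Finset.mul_sum]
      apply Finset.sum_le_sum
      intro u _
      calc ((m u : ℝ) / 2 ^ K - w u) * f u y ≤ |((m u : ℝ) / 2 ^ K - w u) * f u y| := le_abs_self _
        _ = |(m u : ℝ) / 2 ^ K - w u| * |f u y| := abs_mul _ _
        _ ≤ β * |f u y| := mul_le_mul_of_nonneg_right (h2 u) (abs_nonneg _)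
    have h10 : ∑ u ∈ E, (2 * (x u : ℝ) - 1 - z u) * f u y =
        2 * (∑ u ∈ E, ((x u : ℝ) - (m u : ℝ) / 2 ^ K) * f u y +
        ∑ u ∈ E, ((m u : ℝ) / 2 ^ K - w u) * f u y) := by
      rw [← Finset.sum_add_distrib, Finset.mul_sum]
      apply Finset.sum_congr rfl
      intro u _
      rw [hw]
      ring
    rw [h10]
    have h11 : 0 ≤ β * ∑ u ∈ E, |f u y| + M y := by
      have := hM y
      have h12 : 0 ≤ ∑ u ∈ E, |f u y| := Finset.sum_nonneg fun u _ => abs_nonneg _
      positivity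
    have h13 : (1 - 1 / (2 : ℝ) ^ K) * (β * ∑ u ∈ E, |f u y| + M y) ≤
        1 * (β * ∑ u ∈ E, |f u y| + M y) := by
      apply mul_le_mul_of_nonneg_right _ h11
      have : (0 : ℝ) < 1 / 2 ^ K := by positivity
      linarith
    linarith

end Pool.Agent.Helper3.NFR
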