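import Pool.Agent.Helper3.NFR.Base

/-! # module 2: the integrals exist -/

namespace Pool.Agent.Helper3.NFR

open Finset MeasureTheory
open scoped Classical

theorem g_int : Integrable (fun x : ℝ => ((1 + x ^ 2) ^ 2)⁻¹) := by
  refine integrable_inv_one_add_sq.mono ?_ ?_
  · have : Continuous (fun x : ℝ => ((1 + x ^ 2) ^ 2)⁻¹) :=
      Continuous.inv₀ (by fun_prop) (fun x => by positivity)
    exact this.aestronglyMeasurable
  · refine Filter.Eventually.of_forall fun x => ?_
    have h0 : 1 ≤ 1 + x ^ 2 := by nlinarith [sq_nonneg x]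
    rw [Real.norm_of_nonneg (by positivity), Real.norm_of_nonneg (by positivity)]
    apply inv_anti₀ (by positivity)
    nlinarith

theorem J0_pos : 0 < J0 := by
  unfold J0
  rw [integral_pos_iff_support_of_nonneg (fun x => by positivity) g_int]
  have : Function.support (fun x : ℝ => ((1 + x ^ 2) ^ 2)⁻¹) = Set.univ := by
    ext x
    simp only [Function.mem_support, Set.mem_univ, iff_true]
    positivity
  rw [this]
  simp

theorem dn_nonneg (l x : ℝ) (hl : 0 < l) : 0 ≤ dn l x := by
  unfold dn
  have := J0_pos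
  positivity

theorem dn_int (l : ℝ) (hl : 0 < l) : Integrable (dn l) := by
  unfold dn
  have h1 : Integrable (fun x : ℝ => ((1 + (l * x) ^ 2) ^ 2)⁻¹) :=
    g_int.comp_mul_left' hl.ne'
  exact h1.const_mul _

theorem dn_one (l : ℝ) (hl : 0 < l) : ∫ x, dn l x = 1 := by
  unfold dn
  rw [integral_const_mul, Measure.integral_comp_mul_left (fun x : ℝ => ((1 + x ^ 2) ^ 2)⁻¹) l]
  change l / J0 * (|l⁻¹| • J0) = 1
  have := J0_pos
  rw [abs_of_pos (by positivity), smul_eq_mul]
  field_simp

variable {V R : Type} [Fintype V] [Fintype R]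

omit [Fintype V] in
theorem prod_dn_int (lam : R → ℝ) (hl : ∀ S, 0 < lam S) :
    Integrable (fun y : R → ℝ => ∏ S, dn (lam S) (y S)) :=
  Integrable.fintype_prod (fun S => dn_int _ (hl S))

omit [Fintype V] in
theorem prod_dn_one (lam : R → ℝ) (hl : ∀ S, 0 < lam S) :
    ∫ y : R → ℝ, ∏ S, dn (lam S) (y S) = 1 := by
  rw [integral_fintype_prod_volume_eq_prod]
  exact Finset.prod_eq_one fun S _ => dn_one _ (hl S)

omit [Fintype V] [Fintype R] in
theorem xp_le (a : V → Finset R) (c : ℝ) (s : V → ℝ) (T E : Finset V) (hc : 0 ≤ c) (y : R → ℝ) :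
    xp a c s T E y ≤ c * E.card := by
  unfold xp
  have h1 : ∑ u ∈ E, ph (fn a u y) ≤ E.card := by
    calc _ ≤ ∑ u ∈ E, (1 : ℝ) := Finset.sum_le_sum fun u _ => ph_le_one _
      _ = _ := by simp
  have h2 : 0 ≤ ∑ v ∈ T, ph (s v * fn a v y) := Finset.sum_nonneg fun v _ => ph_nonneg _
  have h3 := mul_le_mul_of_nonneg_left h1 hc
  linarith

omit [Fintype V] [Fintype R] in
theorem xp_cont' (a : V → Finset R) (c : ℝ) (s : V → ℝ) (T E : Finset V) :
    Continuous (xp a c s T E) := by
  unfold xp
  have h1 : ∀ u, Continuous (fun y => ph (fn a u y)) := fun u => ph_cont.comp (fn_cont a u)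
  have h2 : ∀ v, Continuous (fun y => ph (s v * fn a v y)) := fun v =>
    ph_cont.comp (continuous_const.mul (fn_cont a v))
  exact (continuous_const.mul (continuous_finsetSum _ fun u _ => h1 u)).sub
    (continuous_finsetSum _ fun v _ => h2 v)

omit [Fintype V] in
theorem wt_pos (a : V → Finset R) (b c : ℝ) (lam : R → ℝ) (s : V → ℝ) (T E : Finset V)
    (hl : ∀ S, 0 < lam S) (y : R → ℝ) : 0 < wt a b c lam s T E y := by
  unfold wt
  apply mul_pos _ (Real.exp_pos _)
  apply Finset.prod_pos
  intro S _
  unfold dn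
  have := J0_pos
  have := hl S
  positivity

theorem st_int : ST_INT := by
  intro V R _ _ a b c lam s T E hb hc hl
  have hI : Integrable (wt a b c lam s T E) := by
    have h0 : Integrable (fun y : R → ℝ => Real.exp (b * (c * E.card)) * ∏ S, dn (lam S) (y S)) :=
      (prod_dn_int lam hl).const_mul _
    refine h0.mono ?_ ?_
    · have h1 := (prod_dn_int lam hl).aestronglyMeasurable
      have h2 : Continuous (fun y : R → ℝ => Real.exp (b * xp a c s T E y)) :=
        Real.continuous_exp.comp (continuous_const.mul (xp_cont' a c s T E))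
      exact h1.mul h2.aestronglyMeasurable
    · refine Filter.Eventually.of_forall fun y => ?_
      rw [Real.norm_of_nonneg (wt_pos a b c lam s T E hl y).le]
      have h3 : 0 ≤ ∏ S, dn (lam S) (y S) := Finset.prod_nonneg fun S _ => dn_nonneg _ _ (hl S)
      rw [Real.norm_of_nonneg (mul_nonneg (Real.exp_pos _).le h3)]
      unfold wt
      rw [mul_comm]
      apply mul_le_mul_of_nonneg_right _ h3
      apply Real.exp_le_exp.mpr
      exact mul_le_mul_of_nonneg_left (xp_le a c s T E hc y) hb
  refine ⟨hI, ?_, prod_dn_one lam hl⟩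
  unfold ZZ
  rw [integral_pos_iff_support_of_nonneg (fun y => (wt_pos a b c lam s T E hl y).le) hI]
  have : Function.support (wt a b c lam s T E) = Set.univ := by
    ext x
    simp only [Function.mem_support, Set.mem_univ, iff_true]
    exact (wt_pos a b c lam s T E hl x).ne'
  rw [this]
  exact isOpen_univ.measure_pos _ Set.univ_nonempty

end Pool.Agent.Helper3.NFR
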