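import Pool.Agent.Helper3.NFR.Base

/-! # module 1: elementary inequalities -/

namespace Pool.Agent.Helper3.NFR

theorem rat_q (x h : ℝ) : (1 + (x + h) ^ 2) * (1 + (x - h) ^ 2) =
    (1 + h ^ 2) ^ 2 + 2 * x ^ 2 * (1 - h ^ 2) + (x ^ 2) ^ 2 := by ring

theorem rat_diff (x h : ℝ) : ph (x + h) + ph (x - h) - 2 * ph x =
    2 * (h ^ 2 * (1 + h ^ 2 - 3 * x ^ 2)) /
      ((1 + x ^ 2) * ((1 + (x + h) ^ 2) * (1 + (x - h) ^ 2))) := by
  unfold ph
  have h1 : (1 + (x + h) ^ 2) ≠ 0 := by positivity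
  have h2 : (1 + (x - h) ^ 2) ≠ 0 := by positivity
  have h3 : (1 + x ^ 2) ≠ 0 := by positivity
  field_simp
  ring

theorem st_rat : ST_RAT := by
  refine ⟨?_, ?_, ?_, ?_, ?_⟩
  · intro x h
    unfold ps
    have h1 : (0 : ℝ) < 1 + (x + h) ^ 2 := by positivity
    have h2 : (0 : ℝ) < 1 + (x - h) ^ 2 := by positivity
    have h3 : (0 : ℝ) < 1 + x ^ 2 := by positivity
    have h4 : (0 : ℝ) < 1 + h ^ 2 := by positivity
    have h5 : Real.log ((1 + (x + h) ^ 2) * (1 + (x - h) ^ 2)) ≤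
        Real.log (((1 + x ^ 2) * (1 + h ^ 2)) ^ 2) := by
      apply Real.log_le_log (by positivity)
      rw [rat_q]
      nlinarith [sq_nonneg (x * h), sq_nonneg x, sq_nonneg h, mul_nonneg (sq_nonneg x) (sq_nonneg h),
        sq_nonneg (x ^ 2), sq_nonneg (h ^ 2), mul_nonneg (sq_nonneg (x ^ 2)) (sq_nonneg h),
        mul_nonneg (sq_nonneg x) (sq_nonneg (h ^ 2)), mul_nonneg (sq_nonneg (x ^ 2)) (sq_nonneg (h ^ 2))]
    rw [Real.log_mul h1.ne' h2.ne', Real.log_pow, Real.log_mul h3.ne' h4.ne'] at h5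
    push_cast at h5
    linarith
  · intro x h
    rw [rat_diff]
    unfold ph
    have h1 : (0 : ℝ) < 1 + (x + h) ^ 2 := by positivity
    have h2 : (0 : ℝ) < 1 + (x - h) ^ 2 := by positivity
    have h3 : (0 : ℝ) < 1 + x ^ 2 := by positivity
    have h4 : (0 : ℝ) < 1 + h ^ 2 := by positivity
    rw [← mul_div_assoc, div_le_div_iff₀ (by positivity) (by positivity)]
    have h6 : 2 * h ^ 2 * ((1 + x ^ 2) * ((1 + (x + h) ^ 2) * (1 + (x - h) ^ 2))) -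
        2 * (h ^ 2 * (1 + h ^ 2 - 3 * x ^ 2)) * (1 + h ^ 2) =
        2 * h ^ 2 * x ^ 2 * ((h ^ 2 - x ^ 2) ^ 2 + 6 + 3 * h ^ 2 + 3 * x ^ 2) := by ring
    have h7 : 0 ≤ 2 * h ^ 2 * x ^ 2 * ((h ^ 2 - x ^ 2) ^ 2 + 6 + 3 * h ^ 2 + 3 * x ^ 2) := by
      positivity
    linarith
  · intro x h
    rw [rat_diff]
    unfold ph
    have h1 : (0 : ℝ) < 1 + (x + h) ^ 2 := by positivity
    have h2 : (0 : ℝ) < 1 + (x - h) ^ 2 := by positivity
    have h3 : (0 : ℝ) < 1 + x ^ 2 := by positivity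
    have h4 : (0 : ℝ) < 1 + h ^ 2 := by positivity
    have h5 : 2 * (h ^ 2 / (1 + h ^ 2)) * (1 - 6 * (x ^ 2 / (1 + x ^ 2))) =
        2 * h ^ 2 * (1 - 5 * x ^ 2) / ((1 + h ^ 2) * (1 + x ^ 2)) := by
      field_simp
      ring
    rw [h5, div_le_div_iff₀ (by positivity) (by positivity)]
    have h6 : 2 * (h ^ 2 * (1 + h ^ 2 - 3 * x ^ 2)) * ((1 + h ^ 2) * (1 + x ^ 2)) -
        2 * h ^ 2 * (1 - 5 * x ^ 2) * ((1 + x ^ 2) * ((1 + (x + h) ^ 2) * (1 + (x - h) ^ 2))) =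
        2 * h ^ 2 * x ^ 2 * (1 + x ^ 2) * (5 * (h ^ 2 - x ^ 2) ^ 2 + 9 * h ^ 2 + 9 * x ^ 2) := by ring
    have h7 : 0 ≤ 2 * h ^ 2 * x ^ 2 * (1 + x ^ 2) *
        (5 * (h ^ 2 - x ^ 2) ^ 2 + 9 * h ^ 2 + 9 * x ^ 2) := by positivity
    linarith
  · intro x
    unfold ph
    have h3 : (0 : ℝ) < 1 + x ^ 2 := by positivity
    have h4 : (0 : ℝ) < 1 + (x / 2) ^ 2 := by positivity
    rw [div_sub_div _ _ h3.ne' h4.ne', div_le_div_iff₀ (by positivity) (by norm_num)]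
    nlinarith [sq_nonneg (x ^ 2 - 2), sq_nonneg x]
  · intro x h
    unfold ps
    have h3 : (0 : ℝ) < 1 + x ^ 2 := by positivity
    have h4 : (0 : ℝ) < 1 + h ^ 2 := by positivity
    rw [← Real.log_mul (by norm_num) h3.ne', ← Real.log_mul (by positivity) h4.ne']
    apply Real.log_le_log (by positivity)
    nlinarith [sq_nonneg (x - h), sq_nonneg (x * h), sq_nonneg x, sq_nonneg h]

end Pool.Agent.Helper3.NFR
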