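import Pool.Agent.Helper3.NFR.Base

/-! # module 13: n-free discrepancy -/

namespace Pool.Agent.Helper3.NFR

open Finset
open scoped Classical

variable {V R : Type} [Fintype V] [Fintype R]

theorem sw_sum (κ i : ℕ) (hi : i ≤ κ) :
    ∑ j ∈ range i, (1 : ℝ) / 2 ^ (κ - j - 1) ≤ 2 / 2 ^ (κ - i) := by
  induction i with
  | zero => simp only [Finset.range_zero, Finset.sum_empty]; positivity
  | succ i ih =>
    rw [Finset.sum_range_succ]
    have h1 := ih (by omega)
    have h2 : κ - i = (κ - (i + 1)) + 1 := by omega
    have h3 : κ - i - 1 = κ - (i + 1) := by omega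
    rw [h2, pow_succ] at h1
    rw [h3]
    refine (add_le_add_left h1 _).trans (le_of_eq ?_)
    field_simp
    norm_num

theorem row_geo (J n : ℕ) :
    ∑ d ∈ range n, (1 : ℝ) / 2 ^ (d - J) ≤ (min n J : ℕ) + 2 - 2 / 2 ^ (n - J) := by
  induction n with
  | zero => simp
  | succ n ih =>
    rw [Finset.sum_range_succ]
    rcases lt_or_ge n J with h | h
    · have e1 : n - J = 0 := by omega
      have e2 : n + 1 - J = 0 := by omega
      have e3 : min n J = n := by omega
      have e4 : min (n + 1) J = n + 1 := by omega
      rw [e1, e3] at ih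
      rw [e1, e2, e4]
      push_cast
      norm_num at ih ⊢
      linarith
    · have e2 : n + 1 - J = (n - J) + 1 := by omega
      have e3 : min n J = J := by omega
      have e4 : min (n + 1) J = J := by omega
      rw [e3] at ih
      rw [e2, e4, pow_succ]
      have : (2 : ℝ) / (2 ^ (n - J) * 2) = 1 / 2 ^ (n - J) := by field_simp
      rw [this]
      have h5 : (2 : ℝ) / 2 ^ (n - J) = 1 / 2 ^ (n - J) + 1 / 2 ^ (n - J) := by
        field_simp; norm_num
      rw [h5] at ih
      linarith

theorem row_total (J i m : ℕ) :
    ∑ j ∈ range i, (if j ≤ m then (1 : ℝ) / 2 ^ (m - j - J) else 0) ≤ J + 2 := by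
  have h1 : ∑ j ∈ range i, (if j ≤ m then (1 : ℝ) / 2 ^ (m - j - J) else 0) ≤
      ∑ j ∈ range (m + 1), (1 : ℝ) / 2 ^ (m - j - J) := by
    rw [← Finset.sum_filter]
    apply Finset.sum_le_sum_of_subset_of_nonneg
    · intro j hj
      simp only [Finset.mem_filter, Finset.mem_range] at hj ⊢
      omega
    · intro j _ _
      positivity
  have h2 : ∑ j ∈ range (m + 1), (1 : ℝ) / 2 ^ (m - j - J) = ∑ d ∈ range (m + 1), (1 : ℝ) / 2 ^ (d - J) := by
    have := Finset.sum_range_reflect (fun d => (1 : ℝ) / 2 ^ (d - J)) (m + 1)
    rw [← this]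
    apply Finset.sum_congr rfl
    intro j _
    simp
  have h3 := row_geo J (m + 1)
  have h4 : ((min (m + 1) J : ℕ) : ℝ) ≤ J := by exact_mod_cast min_le_right _ _
  have h5 : (0 : ℝ) < 2 / 2 ^ (m + 1 - J) := by positivity
  rw [h2] at h1
  linarith

theorem st_nf (h9 : ST_RANK) (h12 : ST_STEP) : ST_NF := by
  obtain ⟨b, C1, hb, hb1, hC1, hstep⟩ := h12
  obtain ⟨C2, hC2, hrank⟩ := h9 b hb hb1
  refine ⟨C1 * C2 * (C2 + 2), ?_⟩
  intro V R _ _ a t ht hcard
  obtain ⟨J, l0, k, hl0, hl0C, hJC, hH⟩ := hrank V R a t ht hcard
  have ht' : (1 : ℝ) ≤ t := by exact_mod_cast ht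
  have hlam : ∀ i S, 0 < lam a l0 J k i S := by
    intro i S
    unfold lam
    positivity
  have hsw : ∀ i v, 0 ≤ sw k i v := by
    intro i v
    unfold sw
    positivity
  have hdisj : ∀ i, Disjoint (TT k i) (EE k i) := by
    intro i
    rw [Finset.disjoint_left]
    intro v hv hv2
    unfold TT at hv
    unfold EE at hv2
    simp only [Finset.mem_filter, Finset.mem_univ, true_and] at hv hv2
    omega
  have hbd : ∀ i v, i ≤ k v → ∑ j ∈ range i, sw k j v / 4 ≤ 1 := by
    intro i v hi
    have h1 := sw_sum (k v) i hi
    have h2 : ∑ j ∈ range i, sw k j v / 4 = (∑ j ∈ range i, (1 : ℝ) / 2 ^ (k v - j - 1)) / 4 := by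
      rw [Finset.sum_div]
      rfl
    rw [h2]
    have h3 : (2 : ℝ) / 2 ^ (k v - i) ≤ 2 := by
      apply div_le_self (by norm_num)
      exact one_le_pow₀ (by norm_num)
    linarith
  -- induction over the levels
  have hind : ∀ i : ℕ, ∃ w : V → ℝ, (∀ v, k v < i → (w v = 1 ∨ w v = -1)) ∧
      (∀ v, i ≤ k v → |w v| ≤ ∑ j ∈ range i, sw k j v / 4) ∧
      ∀ S, |∑ v ∈ Finset.univ.filter (fun v => S ∈ a v), w v| ≤
        ∑ j ∈ range i, (if j ≤ ist a k S then C1 * lam a l0 J k j S else 0) := by
    intro i
    induction i with
    | zero =>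
      refine ⟨fun _ => 0, fun v hv => absurd hv (Nat.not_lt_zero _), fun v _ => by simp, fun S => by simp⟩
    | succ i ih =>
      obtain ⟨w, hw1, hw2, hw3⟩ := ih
      have hz : ∀ v, |(if k v = i then w v else 0 : ℝ)| ≤ 1 := by
        intro v
        split_ifs with h
        · exact (hw2 v h.ge).trans (hbd i v h.ge)
        · simp
      obtain ⟨x, ζ, hx, hζ, hrow⟩ := hstep V R a (lam a l0 J k i) (sw k i) (TT k i) (EE k i) (hdisj i)
        (hlam i) (hsw i) (hH i) (fun v => if k v = i then w v else 0) hz
      refine ⟨fun v => if k v < i then w v else if k v = i then x v else w v + ζ v, ?_, ?_, ?_⟩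
      · intro v hv
        dsimp only
        by_cases h1 : k v < i
        · rw [if_pos h1]; exact hw1 v h1
        · have h2 : k v = i := by omega
          rw [if_neg h1, if_pos h2]
          exact hx v
      · intro v hv
        dsimp only
        rw [if_neg (by omega), if_neg (by omega), Finset.sum_range_succ]
        exact (abs_add_le _ _).trans (add_le_add (hw2 v (by omega)) (hζ v))
      · intro S
        dsimp only
        rw [Finset.sum_range_succ]
        have e1 : ∑ v ∈ Finset.univ.filter (fun v => S ∈ a v),
            (if k v < i then w v else if k v = i then x v else w v + ζ v) =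
            ∑ v ∈ Finset.univ.filter (fun v => S ∈ a v), w v +
            (∑ u ∈ (EE k i).filter (fun u => S ∈ a u), (x u - (if k u = i then w u else 0)) +
            ∑ v ∈ (TT k i).filter (fun v => S ∈ a v), ζ v) := by
          have e2 : (EE k i).filter (fun u => S ∈ a u) =
              (Finset.univ.filter (fun v => S ∈ a v)).filter (fun v => k v = i) := by
            ext v
            unfold EE
            simp only [Finset.mem_filter, Finset.mem_univ, true_and]
            exact and_comm
          have e3 : (TT k i).filter (fun u => S ∈ a u) =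
              (Finset.univ.filter (fun v => S ∈ a v)).filter (fun v => i < k v) := by
            ext v
            unfold TT
            simp only [Finset.mem_filter, Finset.mem_univ, true_and]
            exact and_comm
          rw [e2, e3, Finset.sum_filter (fun v => k v = i), Finset.sum_filter (fun v => i < k v),
            ← Finset.sum_add_distrib, ← Finset.sum_add_distrib]
          apply Finset.sum_congr rfl
          intro v _
          rcases lt_trichotomy (k v) i with h | h | h
          · rw [if_pos h, if_neg (by omega), if_neg (by omega)]; ring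
          · rw [if_neg (by omega), if_pos h, if_pos h, if_pos h, if_neg (by omega)]; ring
          · rw [if_neg (by omega), if_neg (by omega), if_neg (by omega), if_pos h]; ring
        rw [e1]
        refine (abs_add_le _ _).trans (add_le_add (hw3 S) ?_)
        by_cases hS : i ≤ ist a k S
        · rw [if_pos hS]
          exact hrow S
        · rw [if_neg hS]
          have hk : ∀ v, S ∈ a v → k v ≤ ist a k S := by
            intro v hv
            unfold ist
            exact Finset.le_sup (f := k) (by simp [hv])
          have e2 : (EE k i).filter (fun u => S ∈ a u) = ∅ := by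
            apply Finset.filter_eq_empty_iff.mpr
            intro v hv hSv
            unfold EE at hv
            simp only [Finset.mem_filter, Finset.mem_univ, true_and] at hv
            have := hk v hSv
            omega
          have e3 : (TT k i).filter (fun u => S ∈ a u) = ∅ := by
            apply Finset.filter_eq_empty_iff.mpr
            intro v hv hSv
            unfold TT at hv
            simp only [Finset.mem_filter, Finset.mem_univ, true_and] at hv
            have := hk v hSv
            omega
          rw [e2, e3]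
          simp
  obtain ⟨w, hw1, -, hw3⟩ := hind (Finset.univ.sup k + 1)
  refine ⟨w, fun v => hw1 v (Nat.lt_succ_of_le (Finset.le_sup (f := k) (Finset.mem_univ v))), ?_⟩
  intro S
  refine (hw3 S).trans ?_
  have h1 : ∑ j ∈ range (Finset.univ.sup k + 1), (if j ≤ ist a k S then C1 * lam a l0 J k j S else 0) =
      C1 * l0 * ∑ j ∈ range (Finset.univ.sup k + 1),
        (if j ≤ ist a k S then (1 : ℝ) / 2 ^ (ist a k S - j - J) else 0) := by
    rw [Finset.mul_sum]
    apply Finset.sum_congr rfl
    intro j _
    split_ifs
    · unfold lam; ring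
    · ring
  rw [h1]
  have h2 := row_total J (Finset.univ.sup k + 1) (ist a k S)
  have hlog : 0 ≤ Real.log t := Real.log_nonneg ht'
  have h3 : (J : ℝ) + 2 ≤ (C2 + 2) * (1 + Real.log t) := by nlinarith
  have h4 := h2.trans h3
  have h5 : C1 * l0 ≤ C1 * (C2 * Real.sqrt t) := mul_le_mul_of_nonneg_left hl0C hC1.le
  calc C1 * l0 * ∑ j ∈ range (Finset.univ.sup k + 1),
        (if j ≤ ist a k S then (1 : ℝ) / 2 ^ (ist a k S - j - J) else 0)
      ≤ C1 * l0 * ((C2 + 2) * (1 + Real.log t)) := mul_le_mul_of_nonneg_left h4 (by positivity)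
    _ ≤ C1 * (C2 * Real.sqrt t) * ((C2 + 2) * (1 + Real.log t)) :=
        mul_le_mul_of_nonneg_right h5 (by positivity)
    _ = _ := by ring

end Pool.Agent.Helper3.NFR
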