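import Pool.Agent.Helper3.NFR.Rank

/-! # module 9: the rank function, sums and minimisation -/

namespace Pool.Agent.Helper3.NFR

open Finset MeasureTheory
open scoped Classical

variable {V R : Type} [Fintype V] [Fintype R]

theorem geo (m : ℕ) : ∑ j ∈ range m, Ga ^ j ≤ Ga ^ m / 1600 := by
  have h : Ga ≠ 1 := by unfold Ga; norm_num
  rw [geom_sum_eq h]
  have h1 : Ga - 1 = 1600 := by unfold Ga; norm_num
  rw [h1]
  apply div_le_div_of_nonneg_right _ (by norm_num)
  linarith

theorem ite_sum (N m : ℕ) (x : ℝ) (hx : 0 ≤ x) :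
    ∑ j ∈ range N, Ga ^ j * (if j < m then x else 0) ≤ (∑ j ∈ range m, Ga ^ j) * x := by
  have hG := Ga_pos
  have h1 : ∑ j ∈ range N, Ga ^ j * (if j < m then x else 0) =
      ∑ j ∈ (range N).filter (fun j => j < m), Ga ^ j * x := by
    rw [Finset.sum_filter]
    exact Finset.sum_congr rfl fun j _ => by split_ifs <;> simp
  rw [h1, Finset.sum_mul]
  apply Finset.sum_le_sum_of_subset_of_nonneg
  · intro j hj
    simp only [Finset.mem_filter, Finset.mem_range] at hj ⊢
    exact hj.2
  · intro j _ _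
    positivity

theorem row_sum (N κ J : ℕ) (x : ℝ) (hx : 0 ≤ x) :
    ∑ j ∈ range N, Ga ^ j * (if j + J ≤ κ then x else 0) ≤ Ga ^ (κ + 1) / (1600 * Ga ^ J) * x := by
  have hG := Ga_pos
  by_cases h : κ < J
  · have : ∑ j ∈ range N, Ga ^ j * (if j + J ≤ κ then x else 0) = 0 := by
      apply Finset.sum_eq_zero
      intro j _
      rw [if_neg (by omega), mul_zero]
    rw [this]
    positivity
  · push Not at h
    have h1 : ∀ j, (j + J ≤ κ) ↔ j < κ + 1 - J := fun j => by omega
    simp only [h1]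
    refine (ite_sum N (κ + 1 - J) x hx).trans ?_
    apply mul_le_mul_of_nonneg_right _ hx
    refine (geo _).trans ?_
    rw [div_le_div_iff₀ (by norm_num) (by positivity)]
    have : Ga ^ (κ + 1) = Ga ^ (κ + 1 - J) * Ga ^ J := by
      rw [← pow_add]; congr 1; omega
    rw [this]
    linarith

theorem a_count (N J κ : ℕ) :
    Ga ^ J * ∑ j ∈ range N, Ga ^ j * ((κ - j - J : ℕ) : ℝ) ≤ 1601 / 1600 * ∑ j ∈ range κ, Ga ^ j := by
  have hG := Ga_pos
  induction κ with
  | zero => simp
  | succ κ ih =>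
    have h1 : ∑ j ∈ range N, Ga ^ j * ((κ + 1 - j - J : ℕ) : ℝ) =
        ∑ j ∈ range N, Ga ^ j * ((κ - j - J : ℕ) : ℝ) +
          ∑ j ∈ range N, Ga ^ j * (if j + J ≤ κ then 1 else 0) := by
      rw [← Finset.sum_add_distrib]
      apply Finset.sum_congr rfl
      intro j _
      rw [← mul_add]
      congr 1
      by_cases h : j + J ≤ κ
      · rw [if_pos h]
        have : κ + 1 - j - J = (κ - j - J) + 1 := by omega
        rw [this]
        push_cast
        ring
      · rw [if_neg h]
        have : κ + 1 - j - J = 0 := by omega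
        have h' : κ - j - J = 0 := by omega
        rw [this, h']
        simp
    rw [h1, mul_add, Finset.sum_range_succ, mul_add]
    apply add_le_add ih
    have h2 := row_sum N κ J 1 (by norm_num)
    have h3 := mul_le_mul_of_nonneg_left h2 (show 0 ≤ Ga ^ J by positivity)
    refine h3.trans (le_of_eq ?_)
    rw [pow_succ]
    unfold Ga
    field_simp

omit [Fintype R] in
theorem ist_le (a : V → Finset R) (k : V → ℕ) (j J : ℕ) (S : R) :
    ist a k S - j - J ≤ ∑ v ∈ Finset.univ.filter (fun v => S ∈ a v), (k v - j - J) := by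
  unfold ist
  rcases (Finset.univ.filter (fun v => S ∈ a v)).eq_empty_or_nonempty with h | h
  · rw [h]; simp
  · obtain ⟨v, hv, hve⟩ := Finset.exists_mem_eq_sup _ h k
    rw [hve]
    exact Finset.single_le_sum (f := fun v => k v - j - J) (fun _ _ => Nat.zero_le _) hv

theorem ist_sum (a : V → Finset R) (k : V → ℕ) (j J t : ℕ) (hcard : ∀ v, (a v).card ≤ t) :
    ∑ S, ((ist a k S - j - J : ℕ) : ℝ) ≤ t * ∑ v, ((k v - j - J : ℕ) : ℝ) := by
  have h1 : ∑ S, (ist a k S - j - J) ≤ ∑ v, t * (k v - j - J) := by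
    calc ∑ S, (ist a k S - j - J)
        ≤ ∑ S, ∑ v ∈ Finset.univ.filter (fun v => S ∈ a v), (k v - j - J) :=
          Finset.sum_le_sum fun S _ => ist_le a k j J S
      _ = ∑ v, ∑ S ∈ a v, (k v - j - J) := by
          apply Finset.sum_comm'
          intro S v
          simp
      _ ≤ ∑ v, t * (k v - j - J) := by
          apply Finset.sum_le_sum
          intro v _
          rw [Finset.sum_const, smul_eq_mul]
          exact Nat.mul_le_mul_right _ (hcard v)
  rw [← Finset.mul_sum] at h1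
  exact_mod_cast h1

theorem TT_sum (k : V → ℕ) (N : ℕ) (hk : ∀ v, k v ≤ N) :
    ∑ j ∈ range N, Ga ^ j * ((TT k j).card : ℝ) = ∑ v, ∑ j ∈ range (k v), Ga ^ j := by
  have h1 : ∀ j, ((TT k j).card : ℝ) = ∑ v, (if j < k v then (1 : ℝ) else 0) := by
    intro j
    unfold TT
    rw [Finset.card_filter]
    push_cast
    rfl
  simp only [h1, Finset.mul_sum]
  rw [Finset.sum_comm]
  apply Finset.sum_congr rfl
  intro v _
  have h2 : ∑ j ∈ range N, Ga ^ j * (if j < k v then (1 : ℝ) else 0) =
      ∑ j ∈ (range N).filter (fun j => j < k v), Ga ^ j := by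
    rw [Finset.sum_filter]
    exact Finset.sum_congr rfl fun j _ => by split_ifs <;> simp
  rw [h2]
  apply Finset.sum_congr _ fun _ _ => rfl
  ext j
  have := hk v
  simp only [Finset.mem_filter, Finset.mem_range]
  omega

/-- the functional which is minimised -/
noncomputable def WW (a : V → Finset R) (b l0 : ℝ) (J N : ℕ) (k : V → ℕ) : ℝ :=
  ∑ j ∈ range N, Ga ^ j * (LZ a b l0 J k j + b / 1600 * (TT k j).card)

theorem log8 : Real.log 8 ≤ 21 / 10 := by
  have : Real.log 8 = 3 * Real.log 2 := by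
    rw [show (8 : ℝ) = 2 ^ 3 by norm_num, Real.log_pow]; norm_num
  rw [this]
  have := Real.log_two_lt_d9
  linarith

theorem W_low (a : V → Finset R) (b l0 : ℝ) (hb : 0 < b) (hl0 : 0 < l0) (J N t : ℕ)
    (hcard : ∀ v, (a v).card ≤ t) (k : V → ℕ) (hk : ∀ v, k v ≤ N) (C : ℝ)
    (hlow : ∀ (V R : Type) [Fintype V] [Fintype R] (a : V → Finset R) (b c l0 : ℝ) (t : ℕ)
      (e : R → ℕ) (s : V → ℝ) (T E : Finset V), 0 ≤ b → 0 ≤ c → 0 < l0 → (∀ v, (a v).card ≤ t) →
      (∀ v, 0 ≤ s v) → (∀ v, s v ≤ 1) →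
      - (∑ S, (e S : ℝ)) * Real.log 2 - C * b * t / l0 ^ 2 * T.card ≤
        Real.log (ZZ a b c (fun S => l0 / 2 ^ e S) s T E))
    (hC : C * b * t / l0 ^ 2 ≤ b / 6400) (hJ : 13000 * t / b ≤ Ga ^ J) :
    b / 3200 * ∑ j ∈ range N, Ga ^ j * ((TT k j).card : ℝ) ≤ WW a b l0 J N k := by
  have hG := Ga_pos
  have hlog2 : 0 ≤ Real.log 2 := Real.log_nonneg (by norm_num)
  -- each level
  have h1 : ∀ j, -(t * ∑ v, ((k v - j - J : ℕ) : ℝ)) * Real.log 2 - b / 6400 * (TT k j).card ≤
      LZ a b l0 J k j := by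
    intro j
    have h2 := hlow V R a b c0 l0 t (fun S => ist a k S - j - J) (sw k j) (TT k j) (EE k j) hb.le
      c0_pos.le hl0 hcard (fun v => by unfold sw; positivity) (fun v => by
        unfold sw
        rw [div_le_one (by positivity)]
        exact one_le_pow₀ (by norm_num))
    have h3 : LZ a b l0 J k j = Real.log (ZZ a b c0 (fun S => l0 / 2 ^ (ist a k S - j - J)) (sw k j)
      (TT k j) (EE k j)) := rfl
    rw [h3]
    refine le_trans ?_ h2
    have h4 := ist_sum a k j J t hcard
    have h5 := mul_le_mul_of_nonneg_right h4 hlog2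
    have h6 : C * b * t / l0 ^ 2 * ((TT k j).card : ℝ) ≤ b / 6400 * (TT k j).card :=
      mul_le_mul_of_nonneg_right hC (Nat.cast_nonneg _)
    linarith
  -- the sum over the levels
  have h7 : ∑ j ∈ range N, Ga ^ j * ((t : ℝ) * ∑ v, ((k v - j - J : ℕ) : ℝ)) =
      t * ∑ v, ∑ j ∈ range N, Ga ^ j * ((k v - j - J : ℕ) : ℝ) := by
    rw [Finset.sum_comm, Finset.mul_sum]
    apply Finset.sum_congr rfl
    intro j _
    rw [← Finset.mul_sum]
    ring
  have h8 : Ga ^ J * ∑ v, ∑ j ∈ range N, Ga ^ j * ((k v - j - J : ℕ) : ℝ) ≤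
      1601 / 1600 * ∑ v, ∑ j ∈ range (k v), Ga ^ j := by
    rw [Finset.mul_sum, Finset.mul_sum]
    exact Finset.sum_le_sum fun v _ => a_count N J (k v)
  rw [← TT_sum k N hk] at h8
  set Q := ∑ v, ∑ j ∈ range N, Ga ^ j * ((k v - j - J : ℕ) : ℝ) with hQ
  set B := ∑ j ∈ range N, Ga ^ j * ((TT k j).card : ℝ) with hB
  have hQ0 : 0 ≤ Q := Finset.sum_nonneg fun v _ => Finset.sum_nonneg fun j _ => by positivity
  have hB0 : 0 ≤ B := Finset.sum_nonneg fun j _ => by positivity
  have h9 : 13000 * t / b * Q ≤ 1601 / 1600 * B := (mul_le_mul_of_nonneg_right hJ hQ0).trans h8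
  have h10 : 13000 * (t * Q) ≤ 1601 / 1600 * B * b := by
    have := mul_le_mul_of_nonneg_right h9 hb.le
    have e : 13000 * (t : ℝ) / b * Q * b = 13000 * (t * Q) := by field_simp
    rw [e] at this
    exact this
  have h11 : (t : ℝ) * Q * Real.log 2 ≤ b / 6400 * B := by
    have h12 := Real.log_two_lt_d9
    have h13 : 0 ≤ (t : ℝ) * Q := mul_nonneg (Nat.cast_nonneg _) hQ0
    have h14 : (t : ℝ) * Q * Real.log 2 ≤ t * Q * (7 / 10) :=
      mul_le_mul_of_nonneg_left (by linarith) h13
    have h15 : 0 ≤ B * b := mul_nonneg hB0 hb.le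
    linarith
  unfold WW
  have h16 : ∑ j ∈ range N, Ga ^ j * (-((t : ℝ) * ∑ v, ((k v - j - J : ℕ) : ℝ)) * Real.log 2
      - b / 6400 * (TT k j).card + b / 1600 * (TT k j).card) ≤
      ∑ j ∈ range N, Ga ^ j * (LZ a b l0 J k j + b / 1600 * (TT k j).card) := by
    apply Finset.sum_le_sum
    intro j _
    apply mul_le_mul_of_nonneg_left _ (by positivity)
    have := h1 j
    linarith
  refine le_trans ?_ h16
  have h17 : ∑ j ∈ range N, Ga ^ j * (-((t : ℝ) * ∑ v, ((k v - j - J : ℕ) : ℝ)) * Real.log 2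
      - b / 6400 * (TT k j).card + b / 1600 * (TT k j).card) =
      - (∑ j ∈ range N, Ga ^ j * ((t : ℝ) * ∑ v, ((k v - j - J : ℕ) : ℝ))) * Real.log 2 +
      (b / 1600 - b / 6400) * B := by
    rw [hB, Finset.mul_sum, ← Finset.sum_neg_distrib, Finset.sum_mul, ← Finset.sum_add_distrib]
    apply Finset.sum_congr rfl
    intro j _
    ring
  rw [h17, h7, neg_mul]
  have h18 : b / 3200 * B + t * Q * Real.log 2 ≤ (b / 1600 - b / 6400) * B := by
    have h19 : (b / 1600 - b / 6400) * B = b / 3200 * B + b / 6400 * B := by ring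
    rw [h19]
    linarith
  linarith

theorem W_up (a : V → Finset R) (b l0 : ℝ) (hb : 0 < b) (hb1 : b ≤ 1) (hl0 : 0 < l0) (J N t : ℕ)
    (ht : 1 ≤ t) (hJ1 : 1 ≤ J)
    (hcard : ∀ v, (a v).card ≤ t) (k : V → ℕ) (u : V) (hu : k u < N)
    (hJ : 13000 * t / b ≤ Ga ^ J)
    (hH : ¬ Happy a b c0 (1 / 100) (lam a l0 J k (k u)) (sw k (k u)) (TT k (k u)) (EE k (k u)) u) :
    WW a b l0 J N (up k u) < WW a b l0 J N k := by
  have hG := Ga_pos
  have hlog8 : 0 ≤ Real.log 8 := Real.log_nonneg (by norm_num)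
  have hlev : ∀ j, LZ a b l0 J (up k u) j + b / 1600 * (TT (up k u) j).card ≤
      LZ a b l0 J k j + b / 1600 * (TT k j).card + ((if j < k u then b / 3 else 0) +
      (if j + J ≤ k u then t * Real.log 8 else 0) + (if j = k u + 1 then b * c0 else 0) +
      (if j = k u then - b / 200 + b / 1600 else 0)) := by
    intro j
    by_cases hj : j = k u
    · have h1 := lz_gain a b l0 hb.le hb1 hl0 J hJ1 k u hH
      have h2 : (TT (up k u) (k u)).card = (TT k (k u)).card + 1 := by
        rw [TT_up0]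
        apply Finset.card_insert_of_notMem
        unfold TT
        simp
      rw [hj, h2, if_neg (lt_irrefl _), if_neg (by omega), if_neg (by omega), if_pos rfl]
      push_cast
      linarith
    · have h1 := lz_cmp a b l0 hb.le hl0 J k u t (hcard u) j hj
      rw [TT_up k u j hj, if_neg hj]
      linarith
  unfold WW
  have h2 : ∑ j ∈ range N, Ga ^ j * (LZ a b l0 J (up k u) j + b / 1600 * (TT (up k u) j).card) ≤
      ∑ j ∈ range N, (Ga ^ j * (LZ a b l0 J k j + b / 1600 * (TT k j).card) +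
      (Ga ^ j * (if j < k u then b / 3 else 0) +
      Ga ^ j * (if j + J ≤ k u then t * Real.log 8 else 0) +
      Ga ^ j * (if j = k u + 1 then b * c0 else 0) +
      Ga ^ j * (if j = k u then - b / 200 + b / 1600 else 0))) := by
    apply Finset.sum_le_sum
    intro j _
    have := mul_le_mul_of_nonneg_left (hlev j) (show 0 ≤ Ga ^ j by positivity)
    refine this.trans (le_of_eq ?_)
    generalize (if j < k u then b / 3 else 0) = A1
    generalize (if j + J ≤ k u then (t : ℝ) * Real.log 8 else 0) = A2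
    generalize (if j = k u + 1 then b * c0 else 0) = A3
    generalize (if j = k u then - b / 200 + b / 1600 else 0) = A4
    ring
  refine lt_of_le_of_lt h2 ?_
  rw [Finset.sum_add_distrib, Finset.sum_add_distrib, Finset.sum_add_distrib, Finset.sum_add_distrib]
  have s1 : ∑ j ∈ range N, Ga ^ j * (if j < k u then b / 3 else 0) ≤ Ga ^ (k u) / 1600 * (b / 3) :=
    (ite_sum N (k u) (b / 3) (by positivity)).trans
      (mul_le_mul_of_nonneg_right (geo _) (by positivity))
  have s2 := row_sum N (k u) J (t * Real.log 8) (by positivity)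
  have s3 : ∑ j ∈ range N, Ga ^ j * (if j = k u + 1 then b * c0 else 0) ≤ Ga ^ (k u + 1) * (b * c0) := by
    have : ∀ j, Ga ^ j * (if j = k u + 1 then b * c0 else 0) =
        (if j = k u + 1 then Ga ^ (k u + 1) * (b * c0) else 0) := by
      intro j
      split_ifs with h
      · rw [h]
      · simp
    simp only [this, Finset.sum_ite_eq']
    have hc := c0_pos
    split_ifs
    · exact le_refl _
    · positivity
  have s4 : ∑ j ∈ range N, Ga ^ j * (if j = k u then - b / 200 + b / 1600 else 0) =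
      Ga ^ (k u) * (- b / 200 + b / 1600) := by
    have : ∀ j, Ga ^ j * (if j = k u then - b / 200 + b / 1600 else 0) =
        (if j = k u then Ga ^ (k u) * (- b / 200 + b / 1600) else 0) := by
      intro j
      split_ifs with h
      · rw [h]
      · simp
    simp only [this, Finset.sum_ite_eq', Finset.mem_range, hu, if_true]
  have s2' : Ga ^ (k u + 1) / (1600 * Ga ^ J) * (t * Real.log 8) ≤ Ga ^ (k u) * (b / 1600) := by
    have ht' : (1 : ℝ) ≤ t := by exact_mod_cast ht
    have hJ' : 13000 * (t : ℝ) ≤ Ga ^ J * b := by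
      rw [div_le_iff₀ hb] at hJ
      exact hJ
    have hl8 := log8
    rw [div_mul_eq_mul_div, div_le_iff₀ (by positivity), pow_succ]
    have hGv : Ga = 1601 := rfl
    have e1 : (t : ℝ) * Real.log 8 ≤ t * (21 / 10) := mul_le_mul_of_nonneg_left hl8 (by positivity)
    have e2 : Ga * (t * Real.log 8) ≤ Ga ^ J * b := by
      have e4 : Ga * (t * Real.log 8) ≤ 1601 * (t * (21 / 10)) := by
        rw [hGv]
        exact mul_le_mul_of_nonneg_left e1 (by norm_num)
      linarith
    have e3 := mul_le_mul_of_nonneg_left e2 (show 0 ≤ Ga ^ (k u) by positivity)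
    nlinarith
  have s3' : Ga ^ (k u + 1) * (b * c0) = Ga ^ (k u) * (b / 1600) := by
    rw [pow_succ]
    unfold Ga c0
    ring
  have hpos : 0 < Ga ^ (k u) * b := by positivity
  nlinarith

theorem st_rank : ST_RANK := by
  intro b hb hb1
  obtain ⟨Cl, hCl, hlow⟩ := st_low
  have hG := Ga_pos
  refine ⟨Real.sqrt (6400 * Cl) + (Real.log (13000 / b) + 2), ?_, ?_⟩
  · have h1 : 0 ≤ Real.log (13000 / b) := by
      apply Real.log_nonneg
      rw [le_div_iff₀ hb]
      linarith
    have h2 := Real.sqrt_nonneg (6400 * Cl)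
    linarith
  intro V R _ _ a t ht hcard
  have ht' : (1 : ℝ) ≤ t := by exact_mod_cast ht
  set l0 : ℝ := Real.sqrt (6400 * Cl * t) with hl0d
  have hl0 : 0 < l0 := Real.sqrt_pos.mpr (by positivity)
  have hl0sq : l0 ^ 2 = 6400 * Cl * t := Real.sq_sqrt (by positivity)
  set J : ℕ := ⌈Real.log (13000 * t / b)⌉₊ with hJd
  have hx1 : 1 < 13000 * (t : ℝ) / b := by
    rw [lt_div_iff₀ hb]
    nlinarith
  have hlogpos : 0 < Real.log (13000 * t / b) := Real.log_pos hx1
  have hJ1 : 1 ≤ J := Nat.one_le_iff_ne_zero.mpr (Nat.ceil_pos.mpr hlogpos).ne'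
  have hJ : 13000 * (t : ℝ) / b ≤ Ga ^ J := by
    have h1 : Real.log (13000 * t / b) ≤ J := Nat.le_ceil _
    have h2 : 13000 * (t : ℝ) / b = Real.exp (Real.log (13000 * t / b)) := by
      rw [Real.exp_log (by linarith)]
    rw [h2]
    calc Real.exp (Real.log (13000 * t / b)) ≤ Real.exp J := Real.exp_le_exp.mpr h1
      _ = Real.exp 1 ^ J := by rw [← Real.exp_nat_mul, mul_one]
      _ ≤ Ga ^ J := by
        apply pow_le_pow_left₀ (Real.exp_pos _).le
        have := Real.exp_one_lt_d9
        unfold Ga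
        linarith
  -- number of levels
  obtain ⟨K0, hK0⟩ := pow_unbounded_of_one_lt (b * c0 * Fintype.card V / (b / 3200))
    (show (1 : ℝ) < Ga by unfold Ga; norm_num)
  set N := K0 + 1 with hN
  -- minimise
  obtain ⟨κ, -, hκ⟩ := Finset.exists_min_image (Finset.univ : Finset (V → Fin (N + 1)))
    (fun κ => WW a b l0 J N (fun v => (κ v : ℕ))) ⟨fun _ => 0, Finset.mem_univ _⟩
  set k : V → ℕ := fun v => (κ v : ℕ) with hk
  have hkN : ∀ v, k v ≤ N := fun v => Nat.lt_succ_iff.mp (κ v).2
  have hmin : ∀ k' : V → ℕ, (∀ v, k' v ≤ N) → WW a b l0 J N k ≤ WW a b l0 J N k' := by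
    intro k' hk'
    have := hκ (fun v => ⟨k' v, Nat.lt_succ_iff.mpr (hk' v)⟩) (Finset.mem_univ _)
    exact this
  have hW0 : WW a b l0 J N k ≤ b * c0 * Fintype.card V := by
    refine (hmin (fun _ => 0) (fun _ => Nat.zero_le _)).trans ?_
    unfold WW
    have h1 : ∀ j ∈ range N, Ga ^ j * (LZ a b l0 J (fun _ => 0) j +
        b / 1600 * ((TT (fun _ : V => 0) j).card : ℝ)) ≤
        (if j = 0 then b * c0 * Fintype.card V else 0) := by
      intro j _
      have hT : TT (fun _ : V => 0) j = ∅ := by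
        unfold TT; simp
      have h2 := st_up V R a b c0 (lam a l0 J (fun _ => 0) j) (sw (fun _ => 0) j)
        (TT (fun _ => 0) j) (EE (fun _ => 0) j) hb.le c0_pos.le (lam_pos a l0 hl0 J _ j)
      have h3 : LZ a b l0 J (fun _ => 0) j ≤ b * c0 * ((EE (fun _ : V => 0) j).card : ℝ) := h2
      rw [hT, Finset.card_empty, Nat.cast_zero, mul_zero, add_zero]
      by_cases hj : j = 0
      · rw [if_pos hj, hj, pow_zero, one_mul]
        rw [hj] at h3
        have h4 : EE (fun _ : V => 0) 0 = Finset.univ := by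
          unfold EE; simp
        rw [h4, Finset.card_univ] at h3
        exact h3
      · rw [if_neg hj]
        have h4 : EE (fun _ : V => 0) j = ∅ := by
          unfold EE
          simp [Ne.symm hj]
        rw [h4, Finset.card_empty, Nat.cast_zero, mul_zero] at h3
        exact mul_nonpos_of_nonneg_of_nonpos (by positivity) h3
    refine (Finset.sum_le_sum h1).trans ?_
    rw [Finset.sum_ite_eq']
    have hc := c0_pos
    split_ifs
    · exact le_refl _
    · positivity
  have hCb : Cl * b * t / l0 ^ 2 ≤ b / 6400 := by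
    rw [hl0sq]
    apply le_of_eq
    field_simp
  have hWl := W_low a b l0 hb hl0 J N t hcard k hkN Cl hlow hCb hJ
  -- the last level is empty
  have hlast : ∀ v, k v < N := by
    intro v
    by_contra hcon
    push Not at hcon
    have h1 : 1 ≤ (TT k K0).card := by
      apply Finset.card_pos.mpr
      refine ⟨v, ?_⟩
      unfold TT
      simp only [Finset.mem_filter, Finset.mem_univ, true_and]
      omega
    have h2 : Ga ^ K0 * ((TT k K0).card : ℝ) ≤ ∑ j ∈ range N, Ga ^ j * ((TT k j).card : ℝ) :=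
      Finset.single_le_sum (f := fun j => Ga ^ j * ((TT k j).card : ℝ))
        (fun j _ => by positivity) (Finset.mem_range.mpr (by omega))
    have h3 : Ga ^ K0 * 1 ≤ Ga ^ K0 * ((TT k K0).card : ℝ) :=
      mul_le_mul_of_nonneg_left (by exact_mod_cast h1) (by positivity)
    have h4 : b / 3200 * Ga ^ K0 ≤ b * c0 * Fintype.card V := by
      have := mul_le_mul_of_nonneg_left (h3.trans h2) (show 0 ≤ b / 3200 by positivity)
      linarith
    rw [div_lt_iff₀ (by positivity)] at hK0
    linarith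
  refine ⟨J, l0, k, hl0, ?_, ?_, ?_⟩
  · have h1 : l0 = Real.sqrt (6400 * Cl) * Real.sqrt t := by
      rw [hl0d, Real.sqrt_mul (by positivity)]
    rw [h1]
    apply mul_le_mul_of_nonneg_right _ (Real.sqrt_nonneg _)
    have h2 : 0 ≤ Real.log (13000 / b) := by
      apply Real.log_nonneg
      rw [le_div_iff₀ hb]
      linarith
    linarith
  · have h1 : (J : ℝ) < Real.log (13000 * t / b) + 1 := Nat.ceil_lt_add_one hlogpos.le
    have h2 : Real.log (13000 * t / b) = Real.log (13000 / b) + Real.log t := by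
      rw [← Real.log_mul (by positivity) (by positivity)]
      congr 1
      ring
    have h3 : 0 ≤ Real.log (13000 / b) := by
      apply Real.log_nonneg
      rw [le_div_iff₀ hb]
      linarith
    have h4 : 0 ≤ Real.log t := Real.log_nonneg ht'
    have h5 := Real.sqrt_nonneg (6400 * Cl)
    rw [h2] at h1
    nlinarith
  · intro i u hu
    have hui : k u = i := by
      unfold EE at hu
      simpa using hu
    by_contra hH
    rw [← hui] at hH
    have h1 := W_up a b l0 hb hb1 hl0 J N t ht hJ1 hcard k u (hlast u) hJ hH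
    have h2 := hmin (up k u) (by
      intro v
      by_cases hv : v = u
      · rw [hv, up_self]
        have := hlast u
        omega
      · rw [up_ne _ _ _ hv]
        exact hkN v)
    linarith

end Pool.Agent.Helper3.NFR
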