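import Pool.Agent.Helper3.NFR.Base

/-! # module 4: all scales -/

namespace Pool.Agent.Helper3.NFR

open Finset MeasureTheory Set Filter Topology
open scoped Classical

theorem ph_inv (s : ℝ) (hs : 0 < s) : ph (1 / s) = (1 + s ^ 2)⁻¹ := by
  unfold ph
  field_simp
  ring

theorem g1_int : IntegrableOn (fun s : ℝ => ph (1 / s)) (Ioi 0) ∧
    ∫ s in Ioi (0 : ℝ), ph (1 / s) = Real.pi / 2 := by
  have h1 : IntegrableOn (fun s : ℝ => (1 + s ^ 2)⁻¹) (Ioi 0) :=
    integrable_inv_one_add_sq.integrableOn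
  have h2 : ∀ s ∈ Ioi (0 : ℝ), (1 + s ^ 2)⁻¹ = ph (1 / s) := fun s hs => (ph_inv s hs).symm
  refine ⟨h1.congr_fun h2 measurableSet_Ioi, ?_⟩
  rw [← setIntegral_congr_fun measurableSet_Ioi h2, integral_Ioi_inv_one_add_sq]
  simp

/-- antiderivative -/
noncomputable def FF (s : ℝ) : ℝ := s * Real.log (1 + s ^ 2) - 2 * (s * Real.log s) + 2 * Real.arctan s

theorem ps_inv (s : ℝ) (hs : 0 < s) : ps (1 / s) = Real.log (1 + s ^ 2) - 2 * Real.log s := by
  unfold ps
  have h1 : 1 + (1 / s) ^ 2 = (1 + s ^ 2) / s ^ 2 := by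
    field_simp
    ring
  rw [h1, Real.log_div (by positivity) (by positivity), Real.log_pow]
  norm_num

theorem FF_deriv (s : ℝ) (hs : 0 < s) : HasDerivAt FF (ps (1 / s)) s := by
  have h1 : HasDerivAt (fun x : ℝ => 1 + x ^ 2) (2 * s) s := by
    have := (hasDerivAt_pow 2 s).const_add 1
    simpa using this
  have h2 : HasDerivAt (fun x : ℝ => Real.log (1 + x ^ 2)) (2 * s / (1 + s ^ 2)) s :=
    h1.log (by positivity)
  have h3 := (hasDerivAt_id s).mul h2
  have h4 := (hasDerivAt_id s).mul (Real.hasDerivAt_log hs.ne')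
  have h5 := Real.hasDerivAt_arctan s
  have h6 := (h3.sub (h4.const_mul 2)).add (h5.const_mul 2)
  have e : (1 : ℝ) * Real.log (1 + s ^ 2) + id s * (2 * s / (1 + s ^ 2)) -
      2 * (1 * Real.log s + id s * s⁻¹) + 2 * (1 / (1 + s ^ 2)) = ps (1 / s) := by
    rw [ps_inv s hs]
    simp only [id]
    field_simp
    ring
  rw [e] at h6
  exact h6

theorem FF_cont : Continuous FF := by
  unfold FF
  have h1 : Continuous (fun s : ℝ => s * Real.log s) := Real.continuous_mul_log
  have h2 : Continuous (fun s : ℝ => Real.log (1 + s ^ 2)) :=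
    Continuous.log (by fun_prop) (fun x => by positivity)
  exact ((continuous_id.mul h2).sub (continuous_const.mul h1)).add
    (continuous_const.mul Real.continuous_arctan)

theorem FF_lim : Tendsto FF atTop (𝓝 Real.pi) := by
  have h1 : Tendsto (fun s : ℝ => s * ps (1 / s)) atTop (𝓝 0) := by
    refine squeeze_zero' (g := fun s : ℝ => 1 / s) ?_ ?_ ?_
    · filter_upwards [eventually_gt_atTop 0] with s hs
      exact mul_nonneg (le_of_lt hs) (ps_nonneg _)
    · filter_upwards [eventually_gt_atTop 0] with s hs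
      have := ps_le_sq (1 / s)
      calc s * ps (1 / s) ≤ s * (1 / s) ^ 2 := mul_le_mul_of_nonneg_left this (le_of_lt hs)
        _ = 1 / s := by field_simp
    · simpa using tendsto_inv_atTop_zero (𝕜 := ℝ)
  have h2 : Tendsto (fun s : ℝ => 2 * Real.arctan s) atTop (𝓝 (2 * (Real.pi / 2))) :=
    (tendsto_nhds_of_tendsto_nhdsWithin Real.tendsto_arctan_atTop).const_mul 2
  have h3 := h1.add h2
  have e : (0 : ℝ) + 2 * (Real.pi / 2) = Real.pi := by ring
  rw [e] at h3
  refine h3.congr' ?_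
  filter_upwards [eventually_gt_atTop 0] with s hs
  rw [ps_inv s hs]
  unfold FF
  ring

theorem g2_int : IntegrableOn (fun s : ℝ => ps (1 / s)) (Ioi 0) ∧
    ∫ s in Ioi (0 : ℝ), ps (1 / s) = Real.pi := by
  have h1 : ContinuousWithinAt FF (Ici 0) 0 := FF_cont.continuousWithinAt
  have h2 : ∀ s ∈ Ioi (0 : ℝ), HasDerivAt FF (ps (1 / s)) s := fun s hs => FF_deriv s hs
  have h3 : ∀ s ∈ Ioi (0 : ℝ), 0 ≤ ps (1 / s) := fun s _ => ps_nonneg _
  refine ⟨integrableOn_Ioi_deriv_of_nonneg h1 h2 h3 FF_lim, ?_⟩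
  rw [integral_Ioi_of_hasDerivAt_of_nonneg h1 h2 h3 FF_lim]
  unfold FF
  simp

theorem scale_gen (g : ℝ → ℝ) (hg : ∀ x, g (-x) = g x) (h0 : g 0 = 0) (I : ℝ)
    (hi : IntegrableOn (fun s : ℝ => g (1 / s)) (Ioi 0)) (hv : ∫ s in Ioi (0 : ℝ), g (1 / s) = I)
    (x : ℝ) : IntegrableOn (fun h : ℝ => g (x / h)) (Ioi 0) ∧
    ∫ h in Ioi (0 : ℝ), g (x / h) = |x| * I := by
  by_cases hx : x = 0
  · subst hx
    simp [h0]
  · have hx' : 0 < |x| := abs_pos.mpr hx
    have hinv : 0 < |x|⁻¹ := inv_pos.mpr hx'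
    have e : (fun h : ℝ => g (x / h)) = fun h => g (1 / (|x|⁻¹ * h)) := by
      funext h
      have e1 : 1 / (|x|⁻¹ * h) = |x| / h := by
        rw [one_div, mul_inv, inv_inv, div_eq_mul_inv]
      rw [e1]
      rcases abs_choice x with h2 | h2
      · rw [h2]
      · rw [h2, neg_div, hg]
    rw [e]
    constructor
    · rw [integrableOn_Ioi_comp_mul_left_iff (fun s => g (1 / s)) 0 hinv, mul_zero]
      exact hi
    · rw [integral_comp_mul_left_Ioi (fun s => g (1 / s)) 0 hinv, mul_zero, hv, inv_inv, smul_eq_mul]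

theorem st_scale : ST_SCALE := by
  intro I K L _ _ _ x z w α β γ h
  have h1 := fun y => scale_gen ph ph_neg ph_zero _ g1_int.1 g1_int.2 y
  have h2 := fun y => scale_gen ps ps_neg (by simp [ps]) _ g2_int.1 g2_int.2 y
  have i1 : IntegrableOn (fun h : ℝ => ∑ i, ph (x i / h)) (Ioi 0) :=
    integrable_finsetSum _ fun i _ => (h1 (x i)).1
  have i2 : IntegrableOn (fun h : ℝ => ∑ j, ps (z j / h)) (Ioi 0) :=
    integrable_finsetSum _ fun j _ => (h2 (z j)).1
  have i3 : IntegrableOn (fun h : ℝ => ∑ l, ph (w l / h)) (Ioi 0) :=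
    integrable_finsetSum _ fun l _ => (h1 (w l)).1
  have hm : ∫ h in Ioi (0 : ℝ), α * ∑ i, ph (x i / h) ≤
      ∫ h in Ioi (0 : ℝ), (β * ∑ j, ps (z j / h) + γ * ∑ l, ph (w l / h)) := by
    apply setIntegral_mono_on (i1.const_mul α) ((i2.const_mul β).add (i3.const_mul γ))
      measurableSet_Ioi
    intro s hs
    exact h s hs
  rw [integral_const_mul, integral_add (i2.const_mul β) (i3.const_mul γ), integral_const_mul,
    integral_const_mul, integral_finsetSum _ fun i _ => (h1 (x i)).1,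
    integral_finsetSum _ fun j _ => (h2 (z j)).1, integral_finsetSum _ fun l _ => (h1 (w l)).1,
    Finset.sum_congr rfl fun i _ => (h1 (x i)).2, Finset.sum_congr rfl fun j _ => (h2 (z j)).2,
    Finset.sum_congr rfl fun l _ => (h1 (w l)).2, ← Finset.sum_mul, ← Finset.sum_mul,
    ← Finset.sum_mul] at hm
  have hpi := Real.pi_pos
  have h5 : (α * ∑ i, |x i|) * (Real.pi / 2) ≤
      (2 * β * ∑ j, |z j| + γ * ∑ l, |w l|) * (Real.pi / 2) := by
    calc (α * ∑ i, |x i|) * (Real.pi / 2) = α * ((∑ i, |x i|) * (Real.pi / 2)) := by ring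
      _ ≤ _ := hm
      _ = _ := by ring
  exact le_of_mul_le_mul_right h5 (by positivity)

end Pool.Agent.Helper3.NFR
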