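import Pool.Agent.Helper3.NFR.Base

/-! # module 10: signing for functionals -/

namespace Pool.Agent.Helper3.NFR

open Finset
open scoped Classical
open Pool.Agent.Helper38.ZS (IsPr ap l1 ST_SIGN)

/-- every subspace is the range of a projection matrix -/
theorem exists_proj {ι : Type} [Fintype ι] (F : Submodule ℝ (ι → ℝ)) :
    ∃ P : ι → ι → ℝ, IsPr P ∧ (∀ f ∈ F, ap P f = f) ∧ (∀ x, ap P x ∈ F) := by
  let e : EuclideanSpace ℝ ι ≃ₗ[ℝ] (ι → ℝ) := WithLp.linearEquiv 2 ℝ (ι → ℝ)
  let K : Submodule ℝ (EuclideanSpace ℝ ι) := F.comap e.toLinearMap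
  let p : (ι → ℝ) →ₗ[ℝ] (ι → ℝ) := e.toLinearMap ∘ₗ K.starProjection.toLinearMap ∘ₗ e.symm.toLinearMap
  let P : Matrix ι ι ℝ := LinearMap.toMatrix' p
  have hap : ∀ x, ap P x = p x := by
    intro x
    have h1 : P.mulVec x = p x := LinearMap.toMatrix'_mulVec p x
    rw [← h1]
    rfl
  have hP : ∀ i j, P i j = inner ℝ (EuclideanSpace.single i (1 : ℝ))
      (K.starProjection (EuclideanSpace.single j (1 : ℝ))) := by
    intro i j
    have h1 : P i j = p (Pi.single j 1) i := by
      show LinearMap.toMatrix' p i j = _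
      rw [LinearMap.toMatrix'_apply]
    rw [h1, EuclideanSpace.inner_single_left]
    simp [p, e]
  have hpp : ∀ x, p (p x) = p x := by
    intro x
    show e (K.starProjection (e.symm (e (K.starProjection (e.symm x))))) = e (K.starProjection (e.symm x))
    rw [e.symm_apply_apply]
    congr 1
    rw [Submodule.starProjection_eq_self_iff]
    exact Submodule.starProjection_apply_mem K _
  have hsymm : ∀ i j, P i j = P j i := by
    intro i j
    rw [hP, hP, ← Submodule.inner_starProjection_left_eq_right, real_inner_comm]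
  refine ⟨P, ⟨hsymm, ?_⟩, ?_, ?_⟩
  · intro i j
    have h1 : ∀ j, (fun k => P k j) = p (Pi.single j 1) := by
      intro j
      funext k
      show LinearMap.toMatrix' p k j = _
      rw [LinearMap.toMatrix'_apply]
    have h2 : ∑ k, P i k * P k j = ap P (fun k => P k j) i := rfl
    rw [h2, hap, h1, hpp, ← h1]
  · intro f hf
    rw [hap]
    show e (K.starProjection (e.symm f)) = f
    have h1 : e.symm f ∈ K := by
      show e (e.symm f) ∈ F
      rw [e.apply_symm_apply]
      exact hf
    rw [Submodule.starProjection_eq_self_iff.mpr h1, e.apply_symm_apply]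
  · intro x
    rw [hap]
    exact Submodule.starProjection_apply_mem K (e.symm x)

variable {V R : Type} [Fintype V] [Fintype R]

/-- the coordinates -/
noncomputable def co (a : V → Finset R) (lam : R → ℝ) (q : V → ℝ) (T E : Finset V) (y : R → ℝ) :
    V ⊕ R → ℝ :=
  Sum.elim (fun v => if v ∈ E then fn a v y else if v ∈ T then q v * fn a v y else 0)
    (fun S => lam S * y S)

/-- the subspace of the coordinates -/
noncomputable def coF (a : V → Finset R) (lam : R → ℝ) (q : V → ℝ) (T E : Finset V) :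
    Submodule ℝ (V ⊕ R → ℝ) where
  carrier := Set.range (co a lam q T E)
  zero_mem' := by
    refine ⟨0, ?_⟩
    funext i
    rcases i with v | S
    · simp [co, fn]
    · simp [co]
  add_mem' := by
    rintro _ _ ⟨y, rfl⟩ ⟨z, rfl⟩
    refine ⟨y + z, ?_⟩
    funext i
    rcases i with v | S
    · simp only [co, Sum.elim_inl, Pi.add_apply, fn_add]
      split_ifs <;> ring
    · simp only [co, Sum.elim_inr, Pi.add_apply]
      ring
  smul_mem' := by
    rintro c _ ⟨y, rfl⟩
    refine ⟨fun S => c * y S, ?_⟩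
    funext i
    rcases i with v | S
    · simp only [co, Sum.elim_inl, Pi.smul_apply, smul_eq_mul, fn_smul]
      split_ifs <;> ring
    · simp only [co, Sum.elim_inr, Pi.smul_apply, smul_eq_mul]
      ring

theorem st_signf (hs : ST_SIGN) : ST_SIGNF := by
  intro β hβ hβ1
  obtain ⟨η, L, hη, hL, h⟩ := hs β hβ hβ1
  refine ⟨η, L, hη, hL, ?_⟩
  intro V R _ _ a lam q T E hTE hlam hq hlev
  obtain ⟨P, hP, hfix, hmem⟩ := exists_proj (coF a lam q T E)
  set W : Finset (V ⊕ R) := E.map Function.Embedding.inl with hW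
  have hdiag : ∀ i ∈ W, P i i ≤ η := by
    intro i hi
    rw [hW, Finset.mem_map] at hi
    obtain ⟨u, hu, rfl⟩ := hi
    show P (Sum.inl u) (Sum.inl u) ≤ η
    obtain ⟨y, hy⟩ := hmem (fun k => if k = Sum.inl u then 1 else 0)
    have h1 : ∀ k, co a lam q T E y k = P k (Sum.inl u) := by
      intro k
      rw [hy]
      unfold ap
      simp
    have h2 : fn a u y = P (Sum.inl u) (Sum.inl u) := by
      rw [← h1]
      simp [co, hu]
    have h3 : ∑ k, (co a lam q T E y k) ^ 2 = P (Sum.inl u) (Sum.inl u) := by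
      rw [← hP.idem]
      apply Finset.sum_congr rfl
      intro k _
      rw [h1, hP.symm (Sum.inl u) k]
      ring
    have h4 : ∑ S, (lam S * y S) ^ 2 + ∑ v ∈ T, (q v * fn a v y) ^ 2 ≤
        ∑ k, (co a lam q T E y k) ^ 2 := by
      rw [Fintype.sum_sum_type, add_comm]
      apply add_le_add
      · calc ∑ v ∈ T, (q v * fn a v y) ^ 2 = ∑ v ∈ T, (co a lam q T E y (Sum.inl v)) ^ 2 := by
              apply Finset.sum_congr rfl
              intro v hv
              have hvE : v ∉ E := Finset.disjoint_left.mp hTE hv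
              simp [co, hv, hvE]
          _ ≤ _ := Finset.sum_le_sum_of_subset_of_nonneg (Finset.subset_univ _)
              (fun _ _ _ => sq_nonneg _)
      · exact le_of_eq rfl
    have h5 := hlev u hu y
    rw [h2] at h5
    rw [h3] at h4
    have h6 := mul_le_mul_of_nonneg_left h4 hη.le
    have h7 : P (Sum.inl u) (Sum.inl u) ^ 2 ≤ η * P (Sum.inl u) (Sum.inl u) := h5.trans h6
    by_contra hcon
    push Not at hcon
    nlinarith
  obtain ⟨ξ, hξ, hξ2⟩ := h (V ⊕ R) P W hP hdiag
  refine ⟨fun v => ξ (Sum.inl v), fun v => hξ _, ?_⟩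
  intro y
  have h1 := hξ2 (co a lam q T E y) (hfix _ ⟨y, rfl⟩)
  have e1 : ∑ i ∈ W, ξ i * co a lam q T E y i = ∑ u ∈ E, ξ (Sum.inl u) * fn a u y := by
    rw [hW, Finset.sum_map]
    apply Finset.sum_congr rfl
    intro u hu
    simp [co, hu]
  have e2 : l1 (co a lam q T E y) W = ∑ u ∈ E, |fn a u y| := by
    unfold l1
    rw [hW, Finset.sum_map]
    apply Finset.sum_congr rfl
    intro u hu
    simp [co, hu]
  have e3 : ∀ D : Finset (V ⊕ R), (∀ i, i ∈ D ↔ i ∉ W) →
      l1 (co a lam q T E y) D = ∑ S, lam S * |y S| + ∑ v ∈ T, q v * |fn a v y| := by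
    intro D hD
    have hDW : D = Wᶜ := by
      ext i
      rw [hD, Finset.mem_compl]
    rw [hDW]
    have h2 : l1 (co a lam q T E y) W + l1 (co a lam q T E y) Wᶜ = ∑ i, |co a lam q T E y i| := by
      unfold l1
      exact Finset.sum_add_sum_compl W _
    rw [Fintype.sum_sum_type] at h2
    have h3 : ∑ S, |co a lam q T E y (Sum.inr S)| = ∑ S, lam S * |y S| := by
      apply Finset.sum_congr rfl
      intro S _
      simp only [co, Sum.elim_inr]
      rw [abs_mul, abs_of_pos (hlam S)]
    have h4 : ∑ v, |co a lam q T E y (Sum.inl v)| = ∑ u ∈ E, |fn a u y| + ∑ v ∈ T, q v * |fn a v y| := by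
      have h5 : ∀ v, |co a lam q T E y (Sum.inl v)| = (if v ∈ E then |fn a v y| else 0) +
          (if v ∈ T then q v * |fn a v y| else 0) := by
        intro v
        by_cases hE : v ∈ E
        · have hT : v ∉ T := Finset.disjoint_right.mp hTE hE
          simp [co, hE, hT]
        · by_cases hT : v ∈ T
          · simp [co, hE, hT, abs_mul, abs_of_nonneg (hq v)]
          · simp [co, hE, hT]
      rw [Finset.sum_congr rfl fun v _ => h5 v, Finset.sum_add_distrib]
      simp
    rw [h3, h4, e2] at h2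
    linarith
  have key : ∀ D : Finset (V ⊕ R), (∀ i, i ∈ D ↔ i ∉ W) →
      (∑ i ∈ W, ξ i * co a lam q T E y i ≤ β * l1 (co a lam q T E y) W +
        L * l1 (co a lam q T E y) D) → ∑ u ∈ E, ξ (Sum.inl u) * fn a u y ≤
      β * ∑ u ∈ E, |fn a u y| + L * (∑ S, lam S * |y S| + ∑ v ∈ T, q v * |fn a v y|) := by
    intro D hD h
    rw [e1, e2, e3 D hD] at h
    exact h
  refine key _ ?_ h1
  intro i
  exact @Finset.mem_compl (V ⊕ R) _ _ (fun a b => Classical.propDecidable (a = b)) _

end Pool.Agent.Helper3.NFR
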