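import Pool.Agent.Helper3.NFR.Base
import Pool.Agent.Helper92.NF.Cert

/-! # module 12: one level -/

namespace Pool.Agent.Helper3.NFR

open Finset
open scoped Classical

theorem st_step (h3 : ST_DOM) (h4 : ST_SCALE) (h10 : ST_SIGNF) (h11 : ST_BITS) : ST_STEP := by
  have hc0 : (0 : ℝ) < c0 := by unfold c0; norm_num
  have hc1 : c0 ≤ 1 := by unfold c0; norm_num
  obtain ⟨η, L, hη, hL, hsign⟩ := h10 (c0 / 100) (by positivity) (by linarith)
  have hL0 : 0 < L := by linarith
  set b : ℝ := min 1 (η / (400 * L ^ 2)) with hb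
  have hb0 : 0 < b := lt_min (by norm_num) (by positivity)
  have hb1 : b ≤ 1 := min_le_left _ _
  have hb2 : b ≤ η / (400 * L ^ 2) := min_le_right _ _
  refine ⟨b, 32 / 100 / b + 2 * L * Real.sqrt (2 / η), hb0, hb1, by positivity, ?_⟩
  intro V R _ _ a lam s T E hTE hlam hs hH z hz
  obtain ⟨hD, hLev⟩ := h3 V R a b c0 lam s T E hb0 hc0.le hlam hH
  -- the l1 domination
  have hdom : ∀ y : R → ℝ, ∑ u ∈ E, |fn a u y| ≤ 8 / (b * c0) * ∑ S, lam S * |y S| +
      2 / c0 * ∑ v ∈ T, s v * |fn a v y| := by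
    intro y
    have h := h4 {u // u ∈ E} R {v // v ∈ T} (fun u => fn a u.1 y) (fun S => lam S * y S)
      (fun v => s v.1 * fn a v.1 y) (b * c0 / 2) 2 b (by
        intro h hh
        have h5 := hD (fun S => h⁻¹ * y S)
        have e1 : ∑ i : {u // u ∈ E}, ph (fn a i.1 y / h) = ∑ u ∈ E, ph (fn a u (fun S => h⁻¹ * y S)) := by
          rw [Finset.sum_coe_sort E (fun u => ph (fn a u y / h))]
          apply Finset.sum_congr rfl
          intro u _
          rw [fn_smul, div_eq_inv_mul]
        have e2 : ∑ j, ps (lam j * y j / h) = ∑ S, ps (lam S * (h⁻¹ * y S)) := by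
          apply Finset.sum_congr rfl
          intro S _
          congr 1
          rw [div_eq_inv_mul]
          ring
        have e3 : ∑ l : {v // v ∈ T}, ph (s l.1 * fn a l.1 y / h) =
            ∑ v ∈ T, ph (s v * fn a v (fun S => h⁻¹ * y S)) := by
          rw [Finset.sum_coe_sort T (fun v => ph (s v * fn a v y / h))]
          apply Finset.sum_congr rfl
          intro v _
          rw [fn_smul]
          congr 1
          rw [div_eq_inv_mul]
          ring
        rw [e1, e2, e3]
        exact h5)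
    rw [Finset.sum_coe_sort E (fun u => |fn a u y|),
      Finset.sum_coe_sort T (fun v => |s v * fn a v y|)] at h
    have e4 : ∑ j, |lam j * y j| = ∑ S, lam S * |y S| := by
      apply Finset.sum_congr rfl
      intro S _
      rw [abs_mul, abs_of_pos (hlam S)]
    have e5 : ∑ v ∈ T, |s v * fn a v y| = ∑ v ∈ T, s v * |fn a v y| := by
      apply Finset.sum_congr rfl
      intro v _
      rw [abs_mul, abs_of_nonneg (hs v)]
    rw [e4, e5] at h
    have h6 : ∑ u ∈ E, |fn a u y| = (2 / (b * c0)) * (b * c0 / 2 * ∑ u ∈ E, |fn a u y|) := by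
      field_simp
    rw [h6]
    have h7 := mul_le_mul_of_nonneg_left h (show 0 ≤ 2 / (b * c0) by positivity)
    refine h7.trans (le_of_eq ?_)
    field_simp
    ring
  -- signs
  set M : (R → ℝ) → ℝ := fun y => L * (∑ S, (Real.sqrt (2 / η) * lam S) * |y S| +
    ∑ v ∈ T, (Real.sqrt (b / η) * s v) * |fn a v y|) with hM
  have hM0 : ∀ y, 0 ≤ M y := by
    intro y
    rw [hM]
    apply mul_nonneg hL0.le
    apply add_nonneg
    · exact Finset.sum_nonneg fun S _ => mul_nonneg (mul_nonneg (Real.sqrt_nonneg _) (hlam S).le)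
        (abs_nonneg _)
    · exact Finset.sum_nonneg fun v _ => mul_nonneg (mul_nonneg (Real.sqrt_nonneg _) (hs v))
        (abs_nonneg _)
  have hE' : ∀ E' ⊆ E, ∃ ξ : V → ℝ, (∀ v, ξ v = 1 ∨ ξ v = -1) ∧ ∀ y : R → ℝ,
      ∑ u ∈ E', ξ u * fn a u y ≤ c0 / 100 * ∑ u ∈ E', |fn a u y| + M y := by
    intro E' hE'
    refine hsign V R a (fun S => Real.sqrt (2 / η) * lam S) (fun v => Real.sqrt (b / η) * s v) T E'
      (Finset.disjoint_of_subset_right hE' hTE)
      (fun S => mul_pos (Real.sqrt_pos.mpr (by positivity)) (hlam S))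
      (fun v => mul_nonneg (Real.sqrt_nonneg _) (hs v)) ?_
    intro u hu y
    have h5 := hLev u (hE' hu) y
    refine h5.trans (le_of_eq ?_)
    have e1 : ∑ S, (Real.sqrt (2 / η) * lam S * y S) ^ 2 = 2 / η * ∑ S, (lam S * y S) ^ 2 := by
      rw [Finset.mul_sum]
      apply Finset.sum_congr rfl
      intro S _
      rw [mul_assoc, mul_pow, Real.sq_sqrt (by positivity)]
    have e2 : ∑ v ∈ T, (Real.sqrt (b / η) * s v * fn a v y) ^ 2 =
        b / η * ∑ v ∈ T, (s v * fn a v y) ^ 2 := by
      rw [Finset.mul_sum]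
      apply Finset.sum_congr rfl
      intro v _
      rw [mul_assoc, mul_pow, Real.sq_sqrt (by positivity)]
    rw [e1, e2]
    field_simp
  obtain ⟨x, hx, hx2⟩ := h11 V (R → ℝ) (fun v y => fn a v y) M (c0 / 100) E (by positivity) hM0 hE'
    z hz
  -- duality
  have hsq : Real.sqrt (b / η) ≤ 1 / (20 * L) := by
    rw [show 1 / (20 * L) = Real.sqrt ((1 / (20 * L)) ^ 2) by
      rw [Real.sqrt_sq (by positivity)]]
    apply Real.sqrt_le_sqrt
    rw [div_le_iff₀ hη]
    refine hb2.trans (le_of_eq ?_)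
    field_simp
    norm_num
  have hfin : ∀ y : R → ℝ, ∑ u ∈ E, (x u - z u) * fn a u y ≤ ∑ v ∈ T, s v / 4 * |fn a v y| +
      ∑ S, (32 / 100 / b + 2 * L * Real.sqrt (2 / η)) * lam S * |y S| := by
    intro y
    have h5 := hx2 y
    have h6 := hdom y
    have h7 := mul_le_mul_of_nonneg_left h6 (show 0 ≤ 4 * (c0 / 100) by positivity)
    have hS0 : 0 ≤ ∑ v ∈ T, s v * |fn a v y| := Finset.sum_nonneg fun v _ =>
      mul_nonneg (hs v) (abs_nonneg _)
    have e1 : M y = L * Real.sqrt (2 / η) * ∑ S, lam S * |y S| +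
        L * Real.sqrt (b / η) * ∑ v ∈ T, s v * |fn a v y| := by
      rw [hM]
      dsimp only
      rw [mul_add, Finset.mul_sum, Finset.mul_sum, Finset.mul_sum, Finset.mul_sum]
      congr 1
      · exact Finset.sum_congr rfl fun S _ => by ring
      · exact Finset.sum_congr rfl fun v _ => by ring
    have h8 : L * Real.sqrt (b / η) ≤ 1 / 20 := by
      have := mul_le_mul_of_nonneg_left hsq hL0.le
      refine this.trans (le_of_eq ?_)
      field_simp
    have h9 := mul_le_mul_of_nonneg_right h8 hS0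
    have e2 : ∑ v ∈ T, s v / 4 * |fn a v y| = 1 / 4 * ∑ v ∈ T, s v * |fn a v y| := by
      rw [Finset.mul_sum]
      exact Finset.sum_congr rfl fun v _ => by ring
    have e3 : ∑ S, (32 / 100 / b + 2 * L * Real.sqrt (2 / η)) * lam S * |y S| =
        (32 / 100 / b + 2 * L * Real.sqrt (2 / η)) * ∑ S, lam S * |y S| := by
      rw [Finset.mul_sum]
      exact Finset.sum_congr rfl fun S _ => by ring
    have e4 : 4 * (c0 / 100) * (8 / (b * c0) * ∑ S, lam S * |y S| +
        2 / c0 * ∑ v ∈ T, s v * |fn a v y|) = 32 / 100 / b * ∑ S, lam S * |y S| +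
        8 / 100 * ∑ v ∈ T, s v * |fn a v y| := by
      field_simp
      ring
    rw [e4] at h7
    rw [e1] at h5
    rw [e2, e3]
    have h10 : 4 * (c0 / 100) * ∑ u ∈ E, |fn a u y| = 4 * (c0 / 100) * ∑ u ∈ E, |fn a u y| := rfl
    nlinarith
  obtain ⟨w, hw1, hw2⟩ := Pool.Agent.Helper92.NF.cert_exists
    (fun (S : R) (v : V) => if v ∈ T ∧ S ∈ a v then (1 : ℝ) else 0)
    (fun S => ∑ u ∈ E.filter (fun u => S ∈ a u), (x u - z u)) (fun v => s v / 4)
    (fun S => (32 / 100 / b + 2 * L * Real.sqrt (2 / η)) * lam S)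
    (fun v => by have := hs v; positivity) (fun S => by have := hlam S; positivity) (by
      intro y
      have e1 : ∑ S, (∑ u ∈ E.filter (fun u => S ∈ a u), (x u - z u)) * y S =
          ∑ u ∈ E, (x u - z u) * fn a u y := by
        have : ∀ S, (∑ u ∈ E.filter (fun u => S ∈ a u), (x u - z u)) * y S =
            ∑ u ∈ E, (if S ∈ a u then (x u - z u) * y S else 0) := by
          intro S
          rw [Finset.sum_mul, Finset.sum_filter]
        rw [Finset.sum_congr rfl fun S _ => this S, Finset.sum_comm]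
        apply Finset.sum_congr rfl
        intro u _
        unfold fn
        rw [Finset.mul_sum, ← Finset.sum_filter]
        apply Finset.sum_congr _ fun _ _ => rfl
        ext S
        simp
      have e2 : ∑ v, s v / 4 * |∑ S, (if v ∈ T ∧ S ∈ a v then (1 : ℝ) else 0) * y S| =
          ∑ v ∈ T, s v / 4 * |fn a v y| := by
        rw [← Finset.sum_subset (Finset.subset_univ T)]
        · apply Finset.sum_congr rfl
          intro v hv
          congr 2
          unfold fn
          simp [hv]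
        · intro v _ hv
          simp [hv]
      rw [e1, e2]
      exact hfin y)
  refine ⟨x, fun v => - w v, hx, fun v => by rw [abs_neg]; exact hw1 v, ?_⟩
  intro S
  have h5 := hw2 S
  have e1 : ∑ v, (if v ∈ T ∧ S ∈ a v then (1 : ℝ) else 0) * w v =
      ∑ v ∈ T.filter (fun v => S ∈ a v), w v := by
    rw [← Finset.sum_filter_add_sum_filter_not Finset.univ (fun v => v ∈ T ∧ S ∈ a v)]
    have e2 : ∑ v ∈ Finset.univ.filter (fun v => ¬ (v ∈ T ∧ S ∈ a v)),
        (if v ∈ T ∧ S ∈ a v then (1 : ℝ) else 0) * w v = 0 := by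
      apply Finset.sum_eq_zero
      intro v hv
      rw [Finset.mem_filter] at hv
      rw [if_neg hv.2, zero_mul]
    rw [e2, add_zero]
    have e3 : Finset.univ.filter (fun v => v ∈ T ∧ S ∈ a v) = T.filter (fun v => S ∈ a v) := by
      ext v
      simp
    rw [e3]
    apply Finset.sum_congr rfl
    intro v hv
    rw [Finset.mem_filter] at hv
    rw [if_pos hv, one_mul]
  rw [Finset.sum_neg_distrib, ← sub_eq_add_neg, ← e1]
  exact h5

end Pool.Agent.Helper3.NFR
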