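import Pool.Agent.Helper3.ZS.Rec
import Pool.Agent.Helper27.ZS.Greedy
import Pool.Agent.Helper37.ZS.Sample
import Pool.Agent.Helper38.ZS.Sign
import Pool.Agent.Helper38.ZS.Perc
import Pool.Agent.Helper38.ZS.ZC
import Pool.Agent.Helper38.ZS.ZCnt
import Pool.Agent.Helper39.ZS.Pack
import Pool.Agent.Helper43.ZS.Big
import Pool.Agent.Helper55.ZS.Part
import Pool.Agent.Helper55.ZS.Piece
import Pool.Agent.Helper55.ZS.Prof
import Pool.Agent.Helper59.ZS.Level
import Pool.Agent.Helper81.ZS.Step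
import Pool.Agent.Helper81.ZS.Sub
import Pool.Agent.Helper81.ZS.Top
import Pool.Agent.Helper94.ZS.Count
import Pool.Agent.Helper94.ZS.Samples
import Pool.Agent.Helper3.NFR.Dom
import Pool.Agent.Helper3.NFR.Rank2
import Pool.Agent.Helper3.NFR.Scale
import Pool.Agent.Helper3.NFR.SignF
import Pool.Agent.Helper3.NFR.Bits
import Pool.Agent.Helper3.NFR.Step
import Pool.Agent.Helper3.NFR.Main

/-! # n-free Beck-Fiala with one logarithm: everything assembled -/

namespace Pool.Agent.Helper3.NFR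

/-- the signing theorem -/
theorem zs_sign : Pool.Agent.Helper38.ZS.ST_SIGN := by
  have hPACK := Pool.Agent.Helper39.ZS.st_PACK
  have hGR := Pool.Agent.Helper27.ZS.st_greedy
  have hSAMP := Pool.Agent.Helper94.ZS.st_SAMPLES Pool.Agent.Helper37.ZS.st_sample
  have hSTEP := Pool.Agent.Helper81.ZS.st_step hSAMP hPACK hGR
  have hTOP := Pool.Agent.Helper81.ZS.st_top hPACK hGR
  have hSUB := Pool.Agent.Helper81.ZS.st_sub Pool.Agent.Helper38.ZS.st_perc
  have hZCNT := Pool.Agent.Helper38.ZS.st_zcnt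
  have hCOUNT := Pool.Agent.Helper94.ZS.st_COUNT hSTEP hTOP hZCNT hSUB
  have hZC := Pool.Agent.Helper38.ZS.st_zc hCOUNT hZCNT
  have hPIECE := Pool.Agent.Helper55.ZS.st_PIECE Pool.Agent.Helper59.ZS.st_level
    Pool.Agent.Helper55.ZS.st_PROF Pool.Agent.Helper55.ZS.st_PART
  exact Pool.Agent.Helper38.ZS.st_sign hPIECE Pool.Agent.Helper43.ZS.st_big
    Pool.Agent.Helper3.ZS.st_REC hZC

theorem nf : ST_NF :=
  st_nf st_rank (st_step (st_dom st_rat st_int) st_scale (st_signf zs_sign) st_bits)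

end Pool.Agent.Helper3.NFR
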