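import Pool.Agent.Helper3.NFR.Stmts

/-! # basic facts -/

namespace Pool.Agent.Helper3.NFR

open Finset
open scoped Classical

theorem ph_nonneg (x : ℝ) : 0 ≤ ph x := by unfold ph; positivity

theorem ph_le_one (x : ℝ) : ph x ≤ 1 := by
  unfold ph
  rw [div_le_one (by positivity)]
  linarith

theorem ph_neg (x : ℝ) : ph (-x) = ph x := by unfold ph; ring_nf

theorem ph_le_sq (x : ℝ) : ph x ≤ x ^ 2 := by
  unfold ph
  rw [div_le_iff₀ (by positivity)]
  nlinarith [sq_nonneg x, sq_nonneg (x ^ 2)]

theorem ph_zero : ph 0 = 0 := by simp [ph]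

theorem ps_nonneg (x : ℝ) : 0 ≤ ps x := by
  unfold ps
  exact Real.log_nonneg (by nlinarith [sq_nonneg x])

theorem ps_le_sq (x : ℝ) : ps x ≤ x ^ 2 := by
  unfold ps
  have := Real.log_le_sub_one_of_pos (show 0 < 1 + x ^ 2 by positivity)
  linarith

theorem ps_neg (x : ℝ) : ps (-x) = ps x := by unfold ps; ring_nf

theorem ph_half (x : ℝ) (h : 1 ≤ |x|) : 1 ≤ 2 * ph x := by
  unfold ph
  have h1 : 1 ≤ x ^ 2 := by
    rw [← sq_abs]
    nlinarith [abs_nonneg x]
  rw [← mul_div_assoc, le_div_iff₀ (by positivity)]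
  linarith

theorem ph_cont : Continuous ph := by
  unfold ph
  exact (continuous_pow 2).div (by fun_prop) (fun x => by positivity)

theorem ps_cont : Continuous ps := by
  unfold ps
  exact Continuous.log (by fun_prop) (fun x => by positivity)

variable {V R : Type} [Fintype V] [Fintype R]

omit [Fintype V] [Fintype R] in
theorem fn_cont (a : V → Finset R) (v : V) : Continuous (fn a v) := by
  unfold fn
  fun_prop

omit [Fintype V] [Fintype R] in
theorem fn_add (a : V → Finset R) (v : V) (y h : R → ℝ) : fn a v (y + h) = fn a v y + fn a v h := by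
  unfold fn
  rw [← Finset.sum_add_distrib]
  rfl

omit [Fintype V] [Fintype R] in
theorem fn_sub (a : V → Finset R) (v : V) (y h : R → ℝ) : fn a v (y - h) = fn a v y - fn a v h := by
  unfold fn
  rw [← Finset.sum_sub_distrib]
  rfl

omit [Fintype V] [Fintype R] in
theorem fn_smul (a : V → Finset R) (v : V) (c : ℝ) (y : R → ℝ) :
    fn a v (fun S => c * y S) = c * fn a v y := by
  unfold fn
  rw [Finset.mul_sum]

end Pool.Agent.Helper3.NFR
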