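import Mathlib

/-!
# n-free Beck-Fiala from almost signing: definitions

One level of the static construction: `T` are the reserve elements (weights `s`), `E` the elements
coloured at this level, `lam` the inverse tolerances of the rows.
-/

namespace Pool.Agent.Helper3.NFR

open Finset
open scoped Classical

noncomputable section

/-- Cauchy potential of an element -/
def ph (x : ℝ) : ℝ := x ^ 2 / (1 + x ^ 2)

/-- potential of a row -/
def ps (x : ℝ) : ℝ := Real.log (1 + x ^ 2)

/-- normalisation constant -/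
def J0 : ℝ := ∫ x : ℝ, ((1 + x ^ 2) ^ 2)⁻¹

/-- density of a row -/
def dn (l x : ℝ) : ℝ := l / J0 * ((1 + (l * x) ^ 2) ^ 2)⁻¹

variable {V R : Type} [Fintype V] [Fintype R]

/-- the functional of the element `v` -/
def fn (a : V → Finset R) (v : V) (y : R → ℝ) : ℝ := ∑ S ∈ a v, y S

/-- the exponent of the elements -/
def xp (a : V → Finset R) (c : ℝ) (s : V → ℝ) (T E : Finset V) (y : R → ℝ) : ℝ :=
  c * ∑ u ∈ E, ph (fn a u y) - ∑ v ∈ T, ph (s v * fn a v y)

/-- the weight function -/
def wt (a : V → Finset R) (b c : ℝ) (lam : R → ℝ) (s : V → ℝ) (T E : Finset V) (y : R → ℝ) : ℝ :=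
  (∏ S, dn (lam S) (y S)) * Real.exp (b * xp a c s T E y)

/-- the partition function -/
def ZZ (a : V → Finset R) (b c : ℝ) (lam : R → ℝ) (s : V → ℝ) (T E : Finset V) : ℝ :=
  ∫ y : R → ℝ, wt a b c lam s T E y

/-- an element `u` is happy -/
def Happy (a : V → Finset R) (b c ε : ℝ) (lam : R → ℝ) (s : V → ℝ) (T E : Finset V) (u : V) : Prop :=
  ∫ y : R → ℝ, ph (fn a u y) * wt a b c lam s T E y ≤ ε * ZZ a b c lam s T E

/-- the last level of a row -/
def ist (a : V → Finset R) (k : V → ℕ) (S : R) : ℕ :=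
  (Finset.univ.filter (fun v => S ∈ a v)).sup k

/-- inverse tolerance of a row at level `i` -/
def lam (a : V → Finset R) (l0 : ℝ) (J : ℕ) (k : V → ℕ) (i : ℕ) (S : R) : ℝ :=
  l0 / 2 ^ (ist a k S - i - J)

/-- weight of a reserve element at level `i` -/
def sw (k : V → ℕ) (i : ℕ) (v : V) : ℝ := 1 / 2 ^ (k v - i - 1)

/-- reserve at level `i` -/
def TT (k : V → ℕ) (i : ℕ) : Finset V := Finset.univ.filter (fun v => i < k v)

/-- elements of rank `i` -/
def EE (k : V → ℕ) (i : ℕ) : Finset V := Finset.univ.filter (fun v => k v = i)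

end

end Pool.Agent.Helper3.NFR
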