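import Pool.Agent.Helper3.NFR.Int
import Pool.Agent.Helper3.NFR.Rat

/-! # module 7: lower bound of the partition function -/

namespace Pool.Agent.Helper3.NFR

open Finset MeasureTheory
open scoped Classical

variable {R : Type} [Fintype R]

/-- change the sign of one coordinate -/
noncomputable def flipf (S0 : R) (y : R → ℝ) : R → ℝ := fun S => (if S = S0 then (fun x : ℝ => -x) else id) (y S)

omit [Fintype R] in
theorem flip_inv (S0 : R) : Function.Involutive (flipf S0) := by
  intro y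
  funext S
  unfold flipf
  by_cases h : S = S0 <;> simp [h]

theorem flip_mp (S0 : R) : MeasurePreserving (flipf S0) volume volume := by
  unfold flipf
  apply volume_preserving_pi
  intro S
  by_cases h : S = S0
  · simp only [h, if_true]
    exact Measure.measurePreserving_neg _
  · simp only [h, if_false]
    exact MeasurePreserving.id _

theorem flip_integral (S0 : R) (F : (R → ℝ) → ℝ) : ∫ y, F (flipf S0 y) = ∫ y, F y :=
  (flip_mp S0).integral_comp
    (MeasurableEquiv.ofInvolutive _ (flip_inv S0) (flip_mp S0).measurable).measurableEmbedding F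

theorem dn_neg (l x : ℝ) : dn l (-x) = dn l x := by unfold dn; ring_nf

theorem prod_dn_flip (lam : R → ℝ) (S0 : R) (y : R → ℝ) :
    ∏ S, dn (lam S) (flipf S0 y S) = ∏ S, dn (lam S) (y S) := by
  apply Finset.prod_congr rfl
  intro S _
  unfold flipf
  by_cases h : S = S0
  · simp only [h, if_true, dn_neg]
  · simp [h]

theorem ph_dn_int (lam : R → ℝ) (hl : ∀ S, 0 < lam S) (F : (R → ℝ) → ℝ) (hF : Continuous F) :
    Integrable (fun y => ph (F y) * ∏ S, dn (lam S) (y S)) := by
  refine (prod_dn_int lam hl).mono ((ph_cont.comp hF).aestronglyMeasurable.mul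
    (prod_dn_int lam hl).aestronglyMeasurable) ?_
  refine Filter.Eventually.of_forall fun y => ?_
  rw [norm_mul, Real.norm_of_nonneg (ph_nonneg _)]
  exact mul_le_of_le_one_left (norm_nonneg _) (ph_le_one _)

theorem ph_sub (lam : R → ℝ) (hl : ∀ S, 0 < lam S) (A : Finset R) :
    ∫ y : R → ℝ, ph (∑ S ∈ A, y S) * ∏ S, dn (lam S) (y S) ≤
      ∑ S' ∈ A, ∫ y : R → ℝ, ph (y S') * ∏ S, dn (lam S) (y S) := by
  induction A using Finset.induction_on with
  | empty => simp [ph_zero]
  | insert S0 A hS ih =>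
    rw [Finset.sum_insert hS]
    have c1 : Continuous (fun y : R → ℝ => ∑ S ∈ A, y S) := by fun_prop
    have c2 : Continuous (fun y : R → ℝ => ∑ S ∈ insert S0 A, y S) := by fun_prop
    have c3 : Continuous (fun y : R → ℝ => ∑ S ∈ A, y S - y S0) := by fun_prop
    have i1 := ph_dn_int lam hl _ c1
    have i2 := ph_dn_int lam hl _ c2
    have i3 := ph_dn_int lam hl _ c3
    have i4 := ph_dn_int lam hl _ (continuous_apply S0)
    have hflip : ∫ y : R → ℝ, ph (∑ S ∈ A, y S - y S0) * ∏ S, dn (lam S) (y S) =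
        ∫ y : R → ℝ, ph (∑ S ∈ insert S0 A, y S) * ∏ S, dn (lam S) (y S) := by
      rw [← flip_integral S0]
      apply integral_congr_ae
      refine Filter.Eventually.of_forall fun y => ?_
      show ph (∑ S ∈ A, flipf S0 y S - flipf S0 y S0) * ∏ S, dn (lam S) (flipf S0 y S) =
        ph (∑ S ∈ insert S0 A, y S) * ∏ S, dn (lam S) (y S)
      rw [prod_dn_flip, Finset.sum_insert hS]
      congr 2
      have e1 : ∑ S ∈ A, flipf S0 y S = ∑ S ∈ A, y S := by
        apply Finset.sum_congr rfl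
        intro S hSA
        unfold flipf
        have : S ≠ S0 := fun h => hS (h ▸ hSA)
        simp [this]
      have e2 : flipf S0 y S0 = - y S0 := by unfold flipf; simp
      rw [e1, e2]
      ring
    have hm : ∫ y : R → ℝ, (ph (∑ S ∈ insert S0 A, y S) * ∏ S, dn (lam S) (y S) +
        ph (∑ S ∈ A, y S - y S0) * ∏ S, dn (lam S) (y S)) ≤
        ∫ y : R → ℝ, (2 * (ph (∑ S ∈ A, y S) * ∏ S, dn (lam S) (y S)) +
          2 * (ph (y S0) * ∏ S, dn (lam S) (y S))) := by
      apply integral_mono (i2.add i3) ((i1.const_mul 2).add (i4.const_mul 2))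
      intro y
      have h1 := st_rat.2.1 (∑ S ∈ A, y S) (y S0)
      have h2 : 0 ≤ ∏ S, dn (lam S) (y S) := Finset.prod_nonneg fun S _ => dn_nonneg _ _ (hl S)
      show ph (∑ S ∈ insert S0 A, y S) * ∏ S, dn (lam S) (y S) +
        ph (∑ S ∈ A, y S - y S0) * ∏ S, dn (lam S) (y S) ≤
        2 * (ph (∑ S ∈ A, y S) * ∏ S, dn (lam S) (y S)) +
          2 * (ph (y S0) * ∏ S, dn (lam S) (y S))
      rw [Finset.sum_insert hS, add_comm (y S0)]
      nlinarith [mul_le_mul_of_nonneg_right h1 h2]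
    rw [integral_add i2 i3, integral_add (i1.const_mul 2) (i4.const_mul 2), hflip,
      integral_const_mul, integral_const_mul] at hm
    linarith

theorem h2_int : Integrable (fun x : ℝ => x ^ 2 * ((1 + x ^ 2) ^ 2)⁻¹) := by
  refine integrable_inv_one_add_sq.mono ?_ ?_
  · have : Continuous (fun x : ℝ => x ^ 2 * ((1 + x ^ 2) ^ 2)⁻¹) :=
      (continuous_pow 2).mul (Continuous.inv₀ (by fun_prop) (fun x => by positivity))
    exact this.aestronglyMeasurable
  · refine Filter.Eventually.of_forall fun x => ?_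
    rw [Real.norm_of_nonneg (by positivity), Real.norm_of_nonneg (by positivity),
      ← div_eq_mul_inv, div_le_iff₀ (by positivity)]
    rw [inv_mul_eq_div, le_div_iff₀ (by positivity)]
    nlinarith [sq_nonneg x]

theorem ph_one (l : ℝ) (hl : 0 < l) :
    ∫ x, ph x * dn l x ≤ (∫ x : ℝ, x ^ 2 * ((1 + x ^ 2) ^ 2)⁻¹) / J0 / l ^ 2 := by
  have hJ := J0_pos
  have e : ∀ x : ℝ, 1 / (l * J0) * ((l * x) ^ 2 * ((1 + (l * x) ^ 2) ^ 2)⁻¹) = x ^ 2 * dn l x := by
    intro x
    unfold dn
    field_simp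
  have hi : Integrable (fun x : ℝ => x ^ 2 * dn l x) := by
    have h1 : Integrable (fun x : ℝ => (l * x) ^ 2 * ((1 + (l * x) ^ 2) ^ 2)⁻¹) :=
      h2_int.comp_mul_left' hl.ne'
    have h2 := h1.const_mul (1 / (l * J0))
    exact h2.congr (Filter.Eventually.of_forall e)
  have hv : ∫ x, x ^ 2 * dn l x = (∫ x : ℝ, x ^ 2 * ((1 + x ^ 2) ^ 2)⁻¹) / J0 / l ^ 2 := by
    rw [← integral_congr_ae (Filter.Eventually.of_forall e), integral_const_mul,
      Measure.integral_comp_mul_left (fun x : ℝ => x ^ 2 * ((1 + x ^ 2) ^ 2)⁻¹) l, smul_eq_mul,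
      abs_of_pos (by positivity)]
    field_simp
  rw [← hv]
  refine integral_mono ?_ hi ?_
  · refine (dn_int l hl).mono (ph_cont.aestronglyMeasurable.mul (dn_int l hl).aestronglyMeasurable) ?_
    refine Filter.Eventually.of_forall fun y => ?_
    rw [norm_mul, Real.norm_of_nonneg (ph_nonneg _)]
    exact mul_le_of_le_one_left (norm_nonneg _) (ph_le_one _)
  · intro x
    exact mul_le_mul_of_nonneg_right (ph_le_sq x) (dn_nonneg l x hl)

theorem ph_coord (l : ℝ) (hl : 0 < l) (S0 : R) :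
    ∫ y : R → ℝ, ph (y S0) * ∏ S, dn l (y S) = ∫ x, ph x * dn l x := by
  have e : ∀ y : R → ℝ, ph (y S0) * ∏ S, dn l (y S) =
      ∏ S, (if S = S0 then (fun x => ph x * dn l x) else dn l) (y S) := by
    intro y
    rw [← Finset.mul_prod_erase Finset.univ _ (Finset.mem_univ S0),
      ← Finset.mul_prod_erase Finset.univ (fun S => (if S = S0 then (fun x => ph x * dn l x)
        else dn l) (y S)) (Finset.mem_univ S0)]
    simp only [if_true]
    rw [← mul_assoc]
    congr 1
    apply Finset.prod_congr rfl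
    intro S hS
    rw [Finset.mem_erase] at hS
    simp [hS.1]
  rw [integral_congr_ae (Filter.Eventually.of_forall e), integral_fintype_prod_volume_eq_prod,
    ← Finset.mul_prod_erase Finset.univ _ (Finset.mem_univ S0)]
  simp only [if_true]
  have : ∏ S ∈ Finset.univ.erase S0, ∫ x, (if S = S0 then (fun x => ph x * dn l x) else dn l) x = 1 := by
    apply Finset.prod_eq_one
    intro S hS
    rw [Finset.mem_erase] at hS
    simp only [hS.1, if_false]
    exact dn_one l hl
  rw [this, mul_one]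

theorem ph_mono (s x : ℝ) (h0 : 0 ≤ s) (h1 : s ≤ 1) : ph (s * x) ≤ ph x := by
  unfold ph
  rw [div_le_div_iff₀ (by positivity) (by positivity)]
  have : s ^ 2 ≤ 1 := by nlinarith
  nlinarith [sq_nonneg x, mul_nonneg (sq_nonneg x) (sub_nonneg.mpr this)]

theorem dn_low (l : ℝ) (hl : 0 < l) (e : ℕ) (x : ℝ) : (1 / 2 ^ e) * dn l x ≤ dn (l / 2 ^ e) x := by
  unfold dn
  have hJ := J0_pos
  have h2 : (1 : ℝ) ≤ 2 ^ e := one_le_pow₀ (by norm_num)
  have h3 : (l / 2 ^ e * x) ^ 2 ≤ (l * x) ^ 2 := by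
    have : l / 2 ^ e * x = (l * x) / 2 ^ e := by ring
    rw [this, div_pow]
    apply div_le_self (sq_nonneg _)
    exact one_le_pow₀ h2
  have h4 : ((1 + (l * x) ^ 2) ^ 2)⁻¹ ≤ ((1 + (l / 2 ^ e * x) ^ 2) ^ 2)⁻¹ := by
    apply inv_anti₀ (by positivity)
    apply pow_le_pow_left₀ (by positivity)
    linarith
  calc (1 / 2 ^ e) * (l / J0 * ((1 + (l * x) ^ 2) ^ 2)⁻¹)
      = l / 2 ^ e / J0 * ((1 + (l * x) ^ 2) ^ 2)⁻¹ := by ring
    _ ≤ _ := mul_le_mul_of_nonneg_left h4 (by positivity)

theorem st_low : ST_LOW := by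
  have hJ := J0_pos
  have hJ2 : 0 ≤ ∫ x : ℝ, x ^ 2 * ((1 + x ^ 2) ^ 2)⁻¹ := integral_nonneg fun x => by positivity
  refine ⟨(∫ x : ℝ, x ^ 2 * ((1 + x ^ 2) ^ 2)⁻¹) / J0 + 1, by positivity, ?_⟩
  set C := (∫ x : ℝ, x ^ 2 * ((1 + x ^ 2) ^ 2)⁻¹) / J0 + 1 with hC
  intro V R _ _ a b c l0 t e s T E hb hc hl0 hcard hs0 hs1
  have hl : ∀ S : R, 0 < (fun S => l0 / 2 ^ e S) S := fun S => by positivity
  obtain ⟨hI, hZ, -⟩ := st_int V R a b c (fun S => l0 / 2 ^ e S) s T E hb hc hl
  have hl0' : ∀ S : R, 0 < (fun _ : R => l0) S := fun _ => hl0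
  set X : (R → ℝ) → ℝ := fun y => ∑ v ∈ T, ph (s v * fn a v y) with hX
  -- expectation of the exponent
  have hiv : ∀ v, Integrable (fun y : R → ℝ => ph (s v * fn a v y) * ∏ S, dn l0 (y S)) := fun v =>
    ph_dn_int (fun _ => l0) hl0' (fun y => s v * fn a v y) (continuous_const.mul (fn_cont a v))
  have hEv : ∀ v, ∫ y : R → ℝ, ph (s v * fn a v y) * ∏ S, dn l0 (y S) ≤ C * t / l0 ^ 2 := by
    intro v
    have h1 : ∫ y : R → ℝ, ph (s v * fn a v y) * ∏ S, dn l0 (y S) ≤
        ∫ y : R → ℝ, ph (∑ S ∈ a v, y S) * ∏ S, dn l0 (y S) := by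
      apply integral_mono (hiv v) (ph_dn_int (fun _ => l0) hl0' (fun y => ∑ S ∈ a v, y S) (by fun_prop))
      intro y
      have h3 : 0 ≤ ∏ S, dn l0 (y S) := Finset.prod_nonneg fun S _ => dn_nonneg _ _ hl0
      exact mul_le_mul_of_nonneg_right (ph_mono _ _ (hs0 v) (hs1 v)) h3
    have h2 := ph_sub (fun _ => l0) hl0' (a v)
    have h3 : ∑ S' ∈ a v, ∫ y : R → ℝ, ph (y S') * ∏ S, dn l0 (y S) ≤ (a v).card * (C / l0 ^ 2) := by
      rw [← nsmul_eq_mul]
      apply Finset.sum_le_card_nsmul
      intro S' _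
      rw [ph_coord l0 hl0 S']
      refine (ph_one l0 hl0).trans ?_
      apply div_le_div_of_nonneg_right _ (by positivity)
      rw [hC]
      linarith
    have h4 : ((a v).card : ℝ) * (C / l0 ^ 2) ≤ t * (C / l0 ^ 2) := by
      apply mul_le_mul_of_nonneg_right _ (by positivity)
      exact_mod_cast hcard v
    calc _ ≤ _ := h1
      _ ≤ _ := h2
      _ ≤ _ := h3
      _ ≤ _ := h4
      _ = _ := by ring
  have hXint : Integrable (fun y : R → ℝ => X y * ∏ S, dn l0 (y S)) := by
    have : (fun y : R → ℝ => X y * ∏ S, dn l0 (y S)) =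
        fun y => ∑ v ∈ T, ph (s v * fn a v y) * ∏ S, dn l0 (y S) := by
      funext y
      rw [hX, Finset.sum_mul]
    rw [this]
    exact integrable_finsetSum T fun v _ => hiv v
  have hEX : ∫ y : R → ℝ, X y * ∏ S, dn l0 (y S) ≤ C * t / l0 ^ 2 * T.card := by
    have : (fun y : R → ℝ => X y * ∏ S, dn l0 (y S)) =
        fun y => ∑ v ∈ T, ph (s v * fn a v y) * ∏ S, dn l0 (y S) := by
      funext y
      rw [hX, Finset.sum_mul]
    rw [this, integral_finsetSum T fun v _ => hiv v, mul_comm (C * t / l0 ^ 2), ← nsmul_eq_mul]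
    exact Finset.sum_le_card_nsmul _ _ _ fun v _ => hEv v
  set m := b * (C * t / l0 ^ 2 * T.card) with hm
  set K : ℝ := ∏ S, (1 / 2 ^ e S : ℝ) with hK
  have hK0 : 0 < K := Finset.prod_pos fun S _ => by positivity
  have hlow : K * Real.exp (-m) ≤ ZZ a b c (fun S => l0 / 2 ^ e S) s T E := by
    have h1 : ∫ y : R → ℝ, K * Real.exp (-m) * ((1 + m) * ∏ S, dn l0 (y S) -
        b * (X y * ∏ S, dn l0 (y S))) ≤ ZZ a b c (fun S => l0 / 2 ^ e S) s T E := by
      unfold ZZ
      apply integral_mono _ hI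
      · intro y
        show K * Real.exp (-m) * ((1 + m) * ∏ S, dn l0 (y S) -
          b * (X y * ∏ S, dn l0 (y S))) ≤ wt a b c (fun S => l0 / 2 ^ e S) s T E y
        have h3 : 0 ≤ ∏ S, dn l0 (y S) := Finset.prod_nonneg fun S _ => dn_nonneg _ _ hl0
        have h4 : K * ∏ S, dn l0 (y S) ≤ ∏ S, dn (l0 / 2 ^ e S) (y S) := by
          rw [hK, ← Finset.prod_mul_distrib]
          apply Finset.prod_le_prod
          · intro S _
            have := dn_nonneg l0 (y S) hl0
            positivity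
          · intro S _
            exact dn_low l0 hl0 (e S) (y S)
        have h5 : Real.exp (-m) * (1 + m - b * X y) ≤ Real.exp (b * xp a c s T E y) := by
          have h6 : Real.exp (-(b * X y)) ≤ Real.exp (b * xp a c s T E y) := by
            apply Real.exp_le_exp.mpr
            unfold xp
            have h7 : 0 ≤ ∑ u ∈ E, ph (fn a u y) := Finset.sum_nonneg fun u _ => ph_nonneg _
            have h8 : 0 ≤ b * (c * ∑ u ∈ E, ph (fn a u y)) := by positivity
            rw [hX]
            nlinarith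
          have h9 : Real.exp (-(b * X y)) = Real.exp (-m) * Real.exp (m - b * X y) := by
            rw [← Real.exp_add]; congr 1; ring
          have h10 := Real.add_one_le_exp (m - b * X y)
          have h11 := mul_le_mul_of_nonneg_left h10 (Real.exp_pos (-m)).le
          rw [h9] at h6
          calc Real.exp (-m) * (1 + m - b * X y) = Real.exp (-m) * (m - b * X y + 1) := by ring
            _ ≤ _ := h11
            _ ≤ _ := h6
        have h12 : 0 ≤ K * ∏ S, dn l0 (y S) := by positivity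
        calc K * Real.exp (-m) * ((1 + m) * ∏ S, dn l0 (y S) - b * (X y * ∏ S, dn l0 (y S)))
            = (K * ∏ S, dn l0 (y S)) * (Real.exp (-m) * (1 + m - b * X y)) := by ring
          _ ≤ (K * ∏ S, dn l0 (y S)) * Real.exp (b * xp a c s T E y) :=
              mul_le_mul_of_nonneg_left h5 h12
          _ ≤ (∏ S, dn (l0 / 2 ^ e S) (y S)) * Real.exp (b * xp a c s T E y) :=
              mul_le_mul_of_nonneg_right h4 (Real.exp_pos _).le
          _ = _ := rfl
      · exact (((prod_dn_int (fun _ : R => l0) hl0').const_mul (1 + m)).sub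
          (hXint.const_mul b)).const_mul _
    rw [integral_const_mul, integral_sub ((prod_dn_int (fun _ : R => l0) hl0').const_mul (1 + m))
      (hXint.const_mul b), integral_const_mul, integral_const_mul,
      prod_dn_one (fun _ : R => l0) hl0'] at h1
    have h13 : 1 ≤ (1 + m) * 1 - b * ∫ y : R → ℝ, X y * ∏ S, dn l0 (y S) := by
      have := mul_le_mul_of_nonneg_left hEX hb
      rw [← hm] at this
      linarith
    have h14 := mul_le_mul_of_nonneg_left h13 (mul_pos hK0 (Real.exp_pos (-m))).le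
    linarith
  have h15 := Real.log_le_log (mul_pos hK0 (Real.exp_pos (-m))) hlow
  rw [Real.log_mul hK0.ne' (Real.exp_pos _).ne', Real.log_exp] at h15
  have h16 : Real.log K = - (∑ S, (e S : ℝ)) * Real.log 2 := by
    rw [hK, Real.log_prod (fun S _ => by positivity), neg_mul, Finset.sum_mul, ← Finset.sum_neg_distrib]
    apply Finset.sum_congr rfl
    intro S _
    rw [one_div, Real.log_inv, Real.log_pow]
  rw [h16] at h15
  calc _ = - (∑ S, (e S : ℝ)) * Real.log 2 + -m := by rw [hm]; ring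
    _ ≤ _ := h15

end Pool.Agent.Helper3.NFR
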