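import Pool.Agent.Helper3.NFR.Cost
import Pool.Agent.Helper3.NFR.Low

/-! # module 9: the rank function -/

namespace Pool.Agent.Helper3.NFR

open Finset MeasureTheory
open scoped Classical

variable {V R : Type} [Fintype V] [Fintype R]

theorem Ga_pos : (0 : ℝ) < Ga := by unfold Ga; norm_num

/-- raise one element -/
noncomputable def up (k : V → ℕ) (u : V) : V → ℕ := Function.update k u (k u + 1)

omit [Fintype V] in
theorem up_self (k : V → ℕ) (u : V) : up k u u = k u + 1 := by simp [up]

omit [Fintype V] in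
theorem up_ne (k : V → ℕ) (u v : V) (h : v ≠ u) : up k u v = k v := by simp [up, h]

omit [Fintype V] in
theorem up_ge (k : V → ℕ) (u v : V) : k v ≤ up k u v := by
  by_cases h : v = u
  · rw [h, up_self]; omega
  · rw [up_ne _ _ _ h]

omit [Fintype R] in
theorem ist_up (a : V → Finset R) (k : V → ℕ) (u : V) (S : R) :
    ist a k S ≤ ist a (up k u) S ∧ ist a (up k u) S ≤ max (ist a k S) (k u + 1) ∧
    (S ∈ a u → k u ≤ ist a k S) ∧ (S ∉ a u → ist a (up k u) S = ist a k S) := by
  refine ⟨?_, ?_, ?_, ?_⟩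
  · unfold ist
    exact Finset.sup_mono_fun fun v _ => up_ge k u v
  · unfold ist
    apply Finset.sup_le
    intro v hv
    by_cases h : v = u
    · rw [h, up_self]; exact le_max_right _ _
    · rw [up_ne _ _ _ h]
      exact le_max_of_le_left (Finset.le_sup (f := k) hv)
  · intro hS
    unfold ist
    exact Finset.le_sup (f := k) (by simp [hS])
  · intro hS
    unfold ist
    apply Finset.sup_congr rfl
    intro v hv
    apply up_ne
    rintro rfl
    simp [hS] at hv

theorem dn_half (l x : ℝ) (hl : 0 < l) : dn (l / 2) x ≤ 8 * dn l x := by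
  unfold dn
  have hJ := J0_pos
  have h4 : ((1 + (l / 2 * x) ^ 2) ^ 2)⁻¹ ≤ 16 * ((1 + (l * x) ^ 2) ^ 2)⁻¹ := by
    have e : 16 * ((1 + (l * x) ^ 2) ^ 2)⁻¹ = (((1 + (l * x) ^ 2) / 4) ^ 2)⁻¹ := by
      field_simp
      norm_num
    rw [e]
    apply inv_anti₀ (by positivity)
    apply pow_le_pow_left₀ (by positivity)
    have : (l / 2 * x) ^ 2 = (l * x) ^ 2 / 4 := by ring
    rw [this]
    linarith
  calc l / 2 / J0 * ((1 + (l / 2 * x) ^ 2) ^ 2)⁻¹
      ≤ l / 2 / J0 * (16 * ((1 + (l * x) ^ 2) ^ 2)⁻¹) := mul_le_mul_of_nonneg_left h4 (by positivity)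
    _ = _ := by ring

omit [Fintype R] in
theorem lam_pos (a : V → Finset R) (l0 : ℝ) (hl0 : 0 < l0) (J : ℕ) (k : V → ℕ) (i : ℕ) (S : R) :
    0 < lam a l0 J k i S := by
  unfold lam
  positivity

theorem rows_cmp (a : V → Finset R) (l0 : ℝ) (hl0 : 0 < l0) (J : ℕ) (k : V → ℕ) (u : V) (t : ℕ)
    (hcard : (a u).card ≤ t) (j : ℕ) (y : R → ℝ) :
    ∏ S, dn (lam a l0 J (up k u) j S) (y S) ≤
      Real.exp (if j + J ≤ k u then t * Real.log 8 else 0) * ∏ S, dn (lam a l0 J k j S) (y S) := by
  have h1 : ∏ S, dn (lam a l0 J (up k u) j S) (y S) ≤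
      ∏ S, ((if S ∈ a u ∧ j + J ≤ k u then 8 else 1) * dn (lam a l0 J k j S) (y S)) := by
    apply Finset.prod_le_prod
    · intro S _
      exact dn_nonneg _ _ (lam_pos a l0 hl0 J (up k u) j S)
    · intro S _
      obtain ⟨i1, i2, i3, i4⟩ := ist_up a k u S
      have hd := dn_nonneg _ (y S) (lam_pos a l0 hl0 J k j S)
      by_cases hc : ist a (up k u) S - j - J = ist a k S - j - J
      · have e : lam a l0 J (up k u) j S = lam a l0 J k j S := by
          unfold lam; rw [hc]
        rw [e]
        by_cases h8 : S ∈ a u ∧ j + J ≤ k u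
        · rw [if_pos h8]; linarith
        · rw [if_neg h8, one_mul]
      · have hS : S ∈ a u := by
          by_contra hS
          exact hc (by rw [i4 hS])
        have i5 := i3 hS
        have hmax : ist a (up k u) S ≤ ist a k S ∨ ist a (up k u) S ≤ k u + 1 := by
          rcases le_total (ist a k S) (k u + 1) with h | h
          · right; rw [max_eq_right h] at i2; exact i2
          · left; rw [max_eq_left h] at i2; exact i2
        have hc2 : ist a (up k u) S - j - J = (ist a k S - j - J) + 1 ∧ j + J ≤ k u := by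
          omega
        have e : lam a l0 J (up k u) j S = lam a l0 J k j S / 2 := by
          unfold lam
          rw [hc2.1, pow_succ]
          field_simp
        rw [if_pos ⟨hS, hc2.2⟩, e]
        exact dn_half _ _ (lam_pos a l0 hl0 J k j S)
  refine h1.trans ?_
  rw [Finset.prod_mul_distrib]
  apply mul_le_mul_of_nonneg_right _ (Finset.prod_nonneg fun S _ =>
    dn_nonneg _ _ (lam_pos a l0 hl0 J k j S))
  by_cases hj : j + J ≤ k u
  · simp only [hj, and_true, if_true]
    have e : ∏ S : R, (if S ∈ a u then (8 : ℝ) else 1) = 8 ^ (a u).card := by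
      rw [Finset.prod_ite]
      simp
    rw [e]
    have h2 : (8 : ℝ) ^ (a u).card ≤ 8 ^ t := pow_le_pow_right₀ (by norm_num) hcard
    have h3 : Real.exp (t * Real.log 8) = 8 ^ t := by
      rw [mul_comm, Real.exp_mul, Real.exp_log (by norm_num), Real.rpow_natCast]
    rw [h3]
    exact h2
  · simp [hj]

omit [Fintype V] in
theorem sw_ne (k : V → ℕ) (u v : V) (i : ℕ) (h : v ≠ u) : sw (up k u) i v = sw k i v := by
  unfold sw; rw [up_ne _ _ _ h]

theorem TT_up (k : V → ℕ) (u : V) (j : ℕ) (h : j ≠ k u) : TT (up k u) j = TT k j := by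
  ext v
  unfold TT
  simp only [Finset.mem_filter, Finset.mem_univ, true_and]
  by_cases hv : v = u
  · subst hv
    rw [up_self]
    omega
  · rw [up_ne _ _ _ hv]

theorem EE_up (k : V → ℕ) (u : V) (j : ℕ) (h : j ≠ k u) (h' : j ≠ k u + 1) :
    EE (up k u) j = EE k j := by
  ext v
  unfold EE
  simp only [Finset.mem_filter, Finset.mem_univ, true_and]
  by_cases hv : v = u
  · subst hv
    rw [up_self]
    omega
  · rw [up_ne _ _ _ hv]

theorem EE_up1 (k : V → ℕ) (u : V) : EE (up k u) (k u + 1) = insert u (EE k (k u + 1)) := by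
  ext v
  unfold EE
  simp only [Finset.mem_filter, Finset.mem_univ, true_and, Finset.mem_insert]
  by_cases hv : v = u
  · subst hv
    rw [up_self]
    simp
  · rw [up_ne _ _ _ hv]
    simp [hv]

theorem TT_up0 (k : V → ℕ) (u : V) : TT (up k u) (k u) = insert u (TT k (k u)) := by
  ext v
  unfold TT
  simp only [Finset.mem_filter, Finset.mem_univ, true_and, Finset.mem_insert]
  by_cases hv : v = u
  · subst hv
    rw [up_self]
    simp
  · rw [up_ne _ _ _ hv]
    simp [hv]

theorem EE_up0 (k : V → ℕ) (u : V) : EE (up k u) (k u) = (EE k (k u)).erase u := by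
  ext v
  unfold EE
  simp only [Finset.mem_filter, Finset.mem_univ, true_and, Finset.mem_erase]
  by_cases hv : v = u
  · subst hv
    rw [up_self]
    simp
  · rw [up_ne _ _ _ hv]
    simp [hv]

omit [Fintype R] in
theorem xp_cmp (a : V → Finset R) (c : ℝ) (hc : 0 ≤ c) (k : V → ℕ) (u : V) (j : ℕ) (hj : j ≠ k u)
    (y : R → ℝ) :
    xp a c (sw (up k u) j) (TT (up k u) j) (EE (up k u) j) y ≤
      xp a c (sw k j) (TT k j) (EE k j) y + (if j < k u then 1 / 3 else 0) +
        (if j = k u + 1 then c else 0) := by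
  have h1 : ∑ v ∈ TT k j, ph (sw k j v * fn a v y) ≤
      ∑ v ∈ TT (up k u) j, ph (sw (up k u) j v * fn a v y) + (if j < k u then 1 / 3 else 0) := by
    rw [TT_up k u j hj]
    have h2 : ∑ v ∈ TT k j, ph (sw k j v * fn a v y) ≤
      ∑ v ∈ TT k j, (ph (sw (up k u) j v * fn a v y) +
        (if v = u then (if j < k u then 1 / 3 else 0) else 0)) := by
      apply Finset.sum_le_sum
      intro v hv
      by_cases hvu : v = u
      · subst hvu
        have hv' : j < k v := by
          unfold TT at hv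
          simpa using hv
        rw [if_pos rfl, if_pos hv']
        have e : sw (up k v) j v = sw k j v / 2 := by
          unfold sw
          rw [up_self]
          have : k v + 1 - j - 1 = (k v - j - 1) + 1 := by omega
          rw [this, pow_succ]
          field_simp
        rw [e]
        have h3 := st_rat.2.2.2.1 (sw k j v * fn a v y)
        have h4 : sw k j v / 2 * fn a v y = sw k j v * fn a v y / 2 := by ring
        rw [h4]
        linarith
      · rw [if_neg hvu, sw_ne k u v j hvu, add_zero]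
    rw [Finset.sum_add_distrib] at h2
    have h5 : ∑ v ∈ TT k j, (if v = u then (if j < k u then (1 : ℝ) / 3 else 0) else 0) ≤
        (if j < k u then 1 / 3 else 0) := by
      rw [Finset.sum_ite_eq']
      split_ifs <;> norm_num
    linarith
  have h2 : ∑ v ∈ EE (up k u) j, ph (fn a v y) ≤ ∑ v ∈ EE k j, ph (fn a v y) +
      (if j = k u + 1 then 1 else 0) := by
    by_cases hj2 : j = k u + 1
    · rw [if_pos hj2, hj2, EE_up1]
      have hu : u ∉ EE k (k u + 1) := by
        unfold EE
        simp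
      rw [Finset.sum_insert hu]
      have := ph_le_one (fn a u y)
      linarith
    · rw [if_neg hj2, EE_up k u j hj hj2, add_zero]
  have h3 := mul_le_mul_of_nonneg_left h2 hc
  unfold xp
  have h4 : c * (if j = k u + 1 then (1 : ℝ) else 0) = (if j = k u + 1 then c else 0) := by
    split_ifs <;> simp
  rw [mul_add, h4] at h3
  linarith

/-- logarithm of the partition function at level `i` -/
noncomputable def LZ (a : V → Finset R) (b l0 : ℝ) (J : ℕ) (k : V → ℕ) (i : ℕ) : ℝ :=
  Real.log (ZZ a b c0 (lam a l0 J k i) (sw k i) (TT k i) (EE k i))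

theorem c0_pos : (0 : ℝ) < c0 := by unfold c0; norm_num

theorem lz_cmp (a : V → Finset R) (b l0 : ℝ) (hb : 0 ≤ b) (hl0 : 0 < l0) (J : ℕ) (k : V → ℕ)
    (u : V) (t : ℕ) (hcard : (a u).card ≤ t) (j : ℕ) (hj : j ≠ k u) :
    LZ a b l0 J (up k u) j ≤ LZ a b l0 J k j + ((if j < k u then b / 3 else 0) +
      (if j + J ≤ k u then t * Real.log 8 else 0) + (if j = k u + 1 then b * c0 else 0)) := by
  unfold LZ
  rw [add_comm (Real.log _)]
  refine st_cmp V R a b c0 _ (lam a l0 J k j) (lam a l0 J (up k u) j) (sw k j) (sw (up k u) j)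
    (TT k j) (EE k j) (TT (up k u) j) (EE (up k u) j) hb c0_pos.le
    (lam_pos a l0 hl0 J k j) (lam_pos a l0 hl0 J (up k u) j) ?_
  intro y
  have h1 := rows_cmp a l0 hl0 J k u t hcard j y
  have h2 := xp_cmp a c0 c0_pos.le k u j hj y
  unfold wt
  set P := ∏ S, dn (lam a l0 J k j S) (y S)
  set P' := ∏ S, dn (lam a l0 J (up k u) j S) (y S)
  have hP' : 0 ≤ P' := Finset.prod_nonneg fun S _ => dn_nonneg _ _ (lam_pos a l0 hl0 J (up k u) j S)
  have hP : 0 ≤ P := Finset.prod_nonneg fun S _ => dn_nonneg _ _ (lam_pos a l0 hl0 J k j S)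
  have h3 : Real.exp (b * xp a c0 (sw (up k u) j) (TT (up k u) j) (EE (up k u) j) y) ≤
      Real.exp ((if j < k u then b / 3 else 0) + (if j = k u + 1 then b * c0 else 0)) *
      Real.exp (b * xp a c0 (sw k j) (TT k j) (EE k j) y) := by
    rw [← Real.exp_add]
    apply Real.exp_le_exp.mpr
    have h4 := mul_le_mul_of_nonneg_left h2 hb
    have e1 : b * (if j < k u then (1 : ℝ) / 3 else 0) = (if j < k u then b / 3 else 0) := by
      split_ifs <;> ring
    have e2 : b * (if j = k u + 1 then c0 else 0) = (if j = k u + 1 then b * c0 else 0) := by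
      split_ifs <;> simp
    rw [mul_add, mul_add, e1, e2] at h4
    linarith
  calc P' * Real.exp (b * xp a c0 (sw (up k u) j) (TT (up k u) j) (EE (up k u) j) y)
      ≤ (Real.exp (if j + J ≤ k u then t * Real.log 8 else 0) * P) *
        (Real.exp ((if j < k u then b / 3 else 0) + (if j = k u + 1 then b * c0 else 0)) *
        Real.exp (b * xp a c0 (sw k j) (TT k j) (EE k j) y)) :=
        mul_le_mul h1 h3 (Real.exp_pos _).le (mul_nonneg (Real.exp_pos _).le hP)
    _ = _ := by
      generalize (if j < k u then b / 3 else 0) = A1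
      generalize (if j + J ≤ k u then (t : ℝ) * Real.log 8 else 0) = A2
      generalize (if j = k u + 1 then b * c0 else 0) = A3
      rw [show A1 + A2 + A3 = A2 + (A1 + A3) by ring, Real.exp_add A2]
      ring

omit [Fintype R] in
theorem lam_same (a : V → Finset R) (l0 : ℝ) (J : ℕ) (hJ : 1 ≤ J) (k : V → ℕ) (u : V) :
    lam a l0 J (up k u) (k u) = lam a l0 J k (k u) := by
  funext S
  obtain ⟨i1, i2, i3, i4⟩ := ist_up a k u S
  unfold lam
  have : ist a (up k u) S - k u - J = ist a k S - k u - J := by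
    by_cases hS : S ∈ a u
    · have i5 := i3 hS
      rcases le_total (ist a k S) (k u + 1) with h | h
      · rw [max_eq_right h] at i2; omega
      · rw [max_eq_left h] at i2; omega
    · rw [i4 hS]
  rw [this]

theorem lz_gain (a : V → Finset R) (b l0 : ℝ) (hb : 0 ≤ b) (hb1 : b ≤ 1) (hl0 : 0 < l0) (J : ℕ)
    (hJ : 1 ≤ J) (k : V → ℕ) (u : V)
    (hH : ¬ Happy a b c0 (1 / 100) (lam a l0 J k (k u)) (sw k (k u)) (TT k (k u)) (EE k (k u)) u) :
    LZ a b l0 J (up k u) (k u) ≤ LZ a b l0 J k (k u) - b / 200 := by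
  unfold LZ
  rw [lam_same a l0 J hJ k u, TT_up0, EE_up0]
  have h := st_gain V R a b c0 (1 / 100) (lam a l0 J k (k u)) (sw k (k u)) (sw (up k u) (k u))
    (TT k (k u)) (EE k (k u)) u hb hb1 c0_pos.le (by norm_num) (lam_pos a l0 hl0 J k (k u))
    (by unfold EE; simp) (by unfold TT; simp) (by unfold sw; rw [up_self]; simp)
    (fun v hv => sw_ne k u v (k u) hv) hH
  linarith

end Pool.Agent.Helper3.NFR
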