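import Pool.Agent.Helper3.NFR.Defs
import Pool.Agent.Helper38.ZS.Stmts

/-!
# n-free Beck-Fiala from almost signing: statements of the modules
-/

namespace Pool.Agent.Helper3.NFR

open Finset
open scoped Classical

noncomputable section

/-- 1. elementary inequalities -/
def ST_RAT : Prop :=
  (∀ x h : ℝ, ps (x + h) + ps (x - h) - 2 * ps x ≤ 2 * ps h) ∧
  (∀ x h : ℝ, ph (x + h) + ph (x - h) - 2 * ph x ≤ 2 * ph h) ∧
  (∀ x h : ℝ, 2 * ph h * (1 - 6 * ph x) ≤ ph (x + h) + ph (x - h) - 2 * ph x) ∧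
  (∀ x : ℝ, ph x - ph (x / 2) ≤ 1 / 3) ∧
  (∀ x h : ℝ, ps (x + h) ≤ Real.log 2 + ps x + ps h)

/-- 2. the integrals exist -/
def ST_INT : Prop :=
  ∀ (V R : Type) [Fintype V] [Fintype R] (a : V → Finset R) (b c : ℝ) (lam : R → ℝ) (s : V → ℝ)
    (T E : Finset V), 0 ≤ b → 0 ≤ c → (∀ S, 0 < lam S) →
    MeasureTheory.Integrable (wt a b c lam s T E) ∧ 0 < ZZ a b c lam s T E ∧
    ∫ y : R → ℝ, ∏ S, dn (lam S) (y S) = 1

/-- 3. happiness gives domination and leverage -/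
def ST_DOM : Prop :=
  ∀ (V R : Type) [Fintype V] [Fintype R] (a : V → Finset R) (b c : ℝ) (lam : R → ℝ) (s : V → ℝ)
    (T E : Finset V), 0 < b → 0 ≤ c → (∀ S, 0 < lam S) →
    (∀ u ∈ E, Happy a b c (1 / 100) lam s T E u) →
    (∀ y : R → ℝ, b * c / 2 * ∑ u ∈ E, ph (fn a u y) ≤
      2 * ∑ S, ps (lam S * y S) + b * ∑ v ∈ T, ph (s v * fn a v y)) ∧
    (∀ u ∈ E, ∀ y : R → ℝ, (fn a u y) ^ 2 ≤
      2 * ∑ S, (lam S * y S) ^ 2 + b * ∑ v ∈ T, (s v * fn a v y) ^ 2)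

/-- 4. from `ph` to the absolute value: integrate over all scales -/
def ST_SCALE : Prop :=
  ∀ (I K L : Type) [Fintype I] [Fintype K] [Fintype L] (x : I → ℝ) (z : K → ℝ) (w : L → ℝ)
    (α β γ : ℝ), (∀ h : ℝ, 0 < h → α * ∑ i, ph (x i / h) ≤ β * ∑ j, ps (z j / h) + γ * ∑ l, ph (w l / h)) →
    α * ∑ i, |x i| ≤ 2 * β * ∑ j, |z j| + γ * ∑ l, |w l|

/-- 5. pointwise comparison -/
def ST_CMP : Prop :=
  ∀ (V R : Type) [Fintype V] [Fintype R] (a : V → Finset R) (b c K : ℝ) (lam lam' : R → ℝ)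
    (s s' : V → ℝ) (T E T' E' : Finset V), 0 ≤ b → 0 ≤ c → (∀ S, 0 < lam S) → (∀ S, 0 < lam' S) →
    (∀ y, wt a b c lam' s' T' E' y ≤ Real.exp K * wt a b c lam s T E y) →
    Real.log (ZZ a b c lam' s' T' E') ≤ K + Real.log (ZZ a b c lam s T E)

/-- 6. an unhappy element is raised: gain -/
def ST_GAIN : Prop :=
  ∀ (V R : Type) [Fintype V] [Fintype R] (a : V → Finset R) (b c ε : ℝ) (lam : R → ℝ) (s s' : V → ℝ)
    (T E : Finset V) (u : V), 0 ≤ b → b ≤ 1 → 0 ≤ c → 0 ≤ ε → (∀ S, 0 < lam S) → u ∈ E → u ∉ T →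
    s' u = 1 → (∀ v, v ≠ u → s' v = s v) → ¬ Happy a b c ε lam s T E u →
    Real.log (ZZ a b c lam s' (insert u T) (E.erase u)) ≤ Real.log (ZZ a b c lam s T E) - b * ε / 2

/-- 7. lower bound of the partition function -/
def ST_LOW : Prop :=
  ∃ C : ℝ, 0 < C ∧ ∀ (V R : Type) [Fintype V] [Fintype R] (a : V → Finset R) (b c l0 : ℝ) (t : ℕ)
    (e : R → ℕ) (s : V → ℝ) (T E : Finset V), 0 ≤ b → 0 ≤ c → 0 < l0 → (∀ v, (a v).card ≤ t) →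
    (∀ v, 0 ≤ s v) → (∀ v, s v ≤ 1) →
    - (∑ S, (e S : ℝ)) * Real.log 2 - C * b * t / l0 ^ 2 * T.card ≤
      Real.log (ZZ a b c (fun S => l0 / 2 ^ e S) s T E)

/-- 8. upper bound of the partition function -/
def ST_UP : Prop :=
  ∀ (V R : Type) [Fintype V] [Fintype R] (a : V → Finset R) (b c : ℝ) (lam : R → ℝ) (s : V → ℝ)
    (T E : Finset V), 0 ≤ b → 0 ≤ c → (∀ S, 0 < lam S) →
    Real.log (ZZ a b c lam s T E) ≤ b * c * E.card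

/-- the constants -/
def c0 : ℝ := 1 / 2561600
def Ga : ℝ := 1601

/-- 9. the rank function -/
def ST_RANK : Prop :=
  ∀ b : ℝ, 0 < b → b ≤ 1 → ∃ C : ℝ, 0 < C ∧ ∀ (V R : Type) [Fintype V] [Fintype R]
    (a : V → Finset R) (t : ℕ), 1 ≤ t → (∀ v, (a v).card ≤ t) →
    ∃ (J : ℕ) (l0 : ℝ) (k : V → ℕ), 0 < l0 ∧ l0 ≤ C * Real.sqrt t ∧ (J : ℝ) ≤ C * (1 + Real.log t) ∧
      ∀ i, ∀ u ∈ EE k i, Happy a b c0 (1 / 100) (lam a l0 J k i) (sw k i) (TT k i) (EE k i) u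

/-- 10. signing for functionals: `T` has weights, `R` are the rows -/
def ST_SIGNF : Prop :=
  ∀ β : ℝ, 0 < β → β ≤ 1 → ∃ η L : ℝ, 0 < η ∧ 1 ≤ L ∧
    ∀ (V R : Type) [Fintype V] [Fintype R] (a : V → Finset R) (lam : R → ℝ) (q : V → ℝ)
      (T E : Finset V), Disjoint T E → (∀ S, 0 < lam S) → (∀ v, 0 ≤ q v) →
      (∀ u ∈ E, ∀ y : R → ℝ, (fn a u y) ^ 2 ≤
        η * (∑ S, (lam S * y S) ^ 2 + ∑ v ∈ T, (q v * fn a v y) ^ 2)) →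
      ∃ ξ : V → ℝ, (∀ v, ξ v = 1 ∨ ξ v = -1) ∧ ∀ y : R → ℝ, ∑ u ∈ E, ξ u * fn a u y ≤
        β * ∑ u ∈ E, |fn a u y| + L * (∑ S, lam S * |y S| + ∑ v ∈ T, q v * |fn a v y|)

/-- 11. bits: abstract form (`fE u y` the functionals, `M` the rest of the error) -/
def ST_BITS : Prop :=
  ∀ (V Y : Type) [Fintype V] (f : V → Y → ℝ) (M : Y → ℝ) (β : ℝ) (E : Finset V), 0 < β →
    (∀ y, 0 ≤ M y) →
    (∀ E' ⊆ E, ∃ ξ : V → ℝ, (∀ v, ξ v = 1 ∨ ξ v = -1) ∧ ∀ y, ∑ u ∈ E', ξ u * f u y ≤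
      β * ∑ u ∈ E', |f u y| + M y) →
    ∀ z : V → ℝ, (∀ v, |z v| ≤ 1) → ∃ x : V → ℝ, (∀ v, x v = 1 ∨ x v = -1) ∧
      ∀ y, ∑ u ∈ E, (x u - z u) * f u y ≤ 4 * β * ∑ u ∈ E, |f u y| + 2 * M y

/-- 12. one level -/
def ST_STEP : Prop :=
  ∃ b C : ℝ, 0 < b ∧ b ≤ 1 ∧ 0 < C ∧
    ∀ (V R : Type) [Fintype V] [Fintype R] (a : V → Finset R) (lam : R → ℝ) (s : V → ℝ)
      (T E : Finset V), Disjoint T E → (∀ S, 0 < lam S) → (∀ v, 0 ≤ s v) →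
      (∀ u ∈ E, Happy a b c0 (1 / 100) lam s T E u) →
      ∀ z : V → ℝ, (∀ v, |z v| ≤ 1) → ∃ x ζ : V → ℝ, (∀ v, x v = 1 ∨ x v = -1) ∧
        (∀ v, |ζ v| ≤ s v / 4) ∧
        ∀ S, |∑ u ∈ E.filter (fun u => S ∈ a u), (x u - z u) +
          ∑ v ∈ T.filter (fun v => S ∈ a v), ζ v| ≤ C * lam S

/-- 13. n-free discrepancy -/
def ST_NF : Prop :=
  ∃ C : ℝ, ∀ (V R : Type) [Fintype V] [Fintype R] (a : V → Finset R) (t : ℕ), 1 ≤ t →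
    (∀ v, (a v).card ≤ t) → ∃ x : V → ℝ, (∀ v, x v = 1 ∨ x v = -1) ∧
      ∀ S, |∑ v ∈ Finset.univ.filter (fun v => S ∈ a v), x v| ≤ C * Real.sqrt t * (1 + Real.log t)

end

end Pool.Agent.Helper3.NFR
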